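import Pool.Agent.Y119.PL.Irr

/-!
# Irreducible systems of unipotent matrices with a transvection: density in the symplectic group
-/

set_option autoImplicit false

open Matrix Polynomial

namespace Pool.Agent.Y119.PLM

open Pool.Agent.Y119.HY Pool.Agent.Y119.PL

variable {n : ℕ} {J : Matrix (Fin n) (Fin n) ℂ}

/-! ### polynomial interpolation of the powers of a unipotent matrix -/

/-- the polynomial `binomial (X, k)` -/
noncomputable def bp (k : ℕ) : ℂ[X] := C ((k.factorial : ℂ)⁻¹) * descPochhammer ℂ k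

lemma bp_nat (k m : ℕ) : (bp k).eval (m : ℂ) = (m.choose k : ℂ) := by
  unfold bp
  rw [eval_mul, eval_C, descPochhammer_eval_eq_descFactorial, Nat.descFactorial_eq_factorial_mul_choose]
  push_cast
  rw [← mul_assoc, inv_mul_cancel₀ (by exact_mod_cast k.factorial_ne_zero), one_mul]

/-- the powers of `g`, as a matrix of polynomials -/
noncomputable def pw (g : Matrix (Fin n) (Fin n) ℂ) : Matrix (Fin n) (Fin n) ℂ[X] :=
  Matrix.of fun a b => ∑ k ∈ Finset.range n, bp k * C (((g - 1) ^ k) a b)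

lemma pw_nat {g : Matrix (Fin n) (Fin n) ℂ} (hg : (g - 1) ^ n = 0) (m : ℕ) : (pw g).map (eval (m : ℂ)) = g ^ m := by
  have h1 : g ^ m = ∑ k ∈ Finset.range (m + 1), (m.choose k : ℂ) • (g - 1) ^ k := by
    have h2 : g = (g - 1) + 1 := by abel
    conv_lhs => rw [h2]
    rw [(Commute.one_right (g - 1)).add_pow]
    refine Finset.sum_congr rfl fun k _ => ?_
    rw [one_pow, mul_one, ← Nat.cast_comm, ← nsmul_eq_mul, ← Nat.cast_smul_eq_nsmul ℂ]
  have h3 : ∑ k ∈ Finset.range (m + 1), (m.choose k : ℂ) • (g - 1) ^ k =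
      ∑ k ∈ Finset.range n, (m.choose k : ℂ) • (g - 1) ^ k := by
    have h4 : ∀ r, m + 1 ≤ r → n ≤ r → ∑ k ∈ Finset.range (m + 1), (m.choose k : ℂ) • (g - 1) ^ k =
        ∑ k ∈ Finset.range n, (m.choose k : ℂ) • (g - 1) ^ k := by
      intro r hr hn
      have h5 : ∑ k ∈ Finset.range (m + 1), (m.choose k : ℂ) • (g - 1) ^ k =
          ∑ k ∈ Finset.range r, (m.choose k : ℂ) • (g - 1) ^ k := by
        refine Finset.sum_subset (Finset.range_mono hr) fun k _ hk => ?_
        rw [Finset.mem_range, not_lt] at hk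
        rw [Nat.choose_eq_zero_of_lt (by omega), Nat.cast_zero, zero_smul]
      have h6 : ∑ k ∈ Finset.range n, (m.choose k : ℂ) • (g - 1) ^ k =
          ∑ k ∈ Finset.range r, (m.choose k : ℂ) • (g - 1) ^ k := by
        refine Finset.sum_subset (Finset.range_mono hn) fun k _ hk => ?_
        rw [Finset.mem_range, not_lt] at hk
        rw [pow_eq_zero_of_le hk hg, smul_zero]
      rw [h5, h6]
    exact h4 (max (m + 1) n) (le_max_left _ _) (le_max_right _ _)
  rw [h1, h3]
  ext a b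
  rw [Matrix.map_apply, Matrix.sum_apply]
  simp only [pw, Matrix.of_apply, eval_finsetSum, eval_mul, eval_C, bp_nat, Matrix.smul_apply, smul_eq_mul]

/-- a polynomial which vanishes at all natural numbers is zero -/
lemma zero_of_nat {p : ℂ[X]} (h : ∀ m : ℕ, p.eval (m : ℂ) = 0) : p = 0 := by
  refine Polynomial.eq_zero_of_infinite_isRoot p (Set.Infinite.mono (s := Set.range (fun m : ℕ => (m : ℂ))) ?_
    (Set.infinite_range_of_injective Nat.cast_injective))
  rintro _ ⟨m, rfl⟩
  exact h m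

lemma pw_succ {g : Matrix (Fin n) (Fin n) ℂ} (hg : (g - 1) ^ n = 0) (c : ℂ) :
    (pw g).map (eval c) * g = (pw g).map (eval (c + 1)) := by
  ext a b
  have h1 : (∑ k, pw g a k * C (g k b)) - (pw g a b).comp (X + 1) = 0 := by
    refine zero_of_nat fun m => ?_
    have h2 : (g ^ m * g) a b = (g ^ (m + 1)) a b := by rw [← pow_succ]
    rw [← pw_nat hg, ← pw_nat hg, Matrix.mul_apply, Matrix.map_apply] at h2
    rw [eval_sub, eval_comp, eval_finsetSum, eval_add, eval_X, eval_one]
    simp only [Matrix.map_apply] at h2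
    push_cast at h2
    rw [← h2, sub_eq_zero]
    exact Finset.sum_congr rfl fun k _ => by rw [eval_mul, eval_C]
  have h3 := congrArg (eval c) h1
  rw [eval_sub, eval_comp, eval_finsetSum, eval_add, eval_X, eval_one, eval_zero] at h3
  rw [Matrix.mul_apply, Matrix.map_apply]
  simp only [Matrix.map_apply]
  rw [← sub_eq_zero, ← h3]
  congr 1
  exact Finset.sum_congr rfl fun k _ => by rw [eval_mul, eval_C]

lemma pw_neg {g : Matrix (Fin n) (Fin n) ℂ} (hg : (g - 1) ^ n = 0) : (pw g).map (eval (-1)) * g = 1 := by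
  have h1 := pw_succ hg (-1)
  have h2 := pw_nat hg 0
  rw [Nat.cast_zero, pow_zero] at h2
  rw [h1, neg_add_cancel, h2]

/-- the value of a functional on the image of a vector, as a polynomial -/
noncomputable def lp (M : Matrix (Fin n) (Fin n) ℂ[X]) (y : Fin n → ℂ) (l : (Fin n → ℂ) →ₗ[ℂ] ℂ) : ℂ[X] :=
  ∑ a, ∑ b, C (l (Pi.single a 1) * y b) * M a b

lemma lp_eval (M : Matrix (Fin n) (Fin n) ℂ[X]) (y : Fin n → ℂ) (l : (Fin n → ℂ) →ₗ[ℂ] ℂ) (c : ℂ) :
    (lp M y l).eval c = l (M.map (eval c) *ᵥ y) := by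
  have h1 : ∀ v : Fin n → ℂ, l v = ∑ a, v a * l (Pi.single a 1) := by
    intro v
    conv_lhs => rw [pi_eq_sum_univ v]
    rw [map_sum]
    refine Finset.sum_congr rfl fun a _ => ?_
    rw [map_smul, smul_eq_mul]
    congr 2
    funext b
    rw [Pi.single_apply]
    simp [eq_comm]
  rw [h1]
  unfold lp
  rw [eval_finsetSum]
  refine Finset.sum_congr rfl fun a _ => ?_
  rw [eval_finsetSum]
  have h2 : (M.map (eval c) *ᵥ y) a = ∑ b, (M a b).eval c * y b := rfl
  rw [h2, Finset.sum_mul]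
  refine Finset.sum_congr rfl fun b _ => ?_
  rw [eval_mul, eval_C]
  ring

/-- closed under interpolation of polynomial families along the natural numbers -/
def NClosed (S : Submonoid (Matrix (Fin n) (Fin n) ℂ)) : Prop :=
  ∀ M : Matrix (Fin n) (Fin n) ℂ[X], (∀ m : ℕ, M.map (Polynomial.eval (m : ℂ)) ∈ S) → ∀ c, M.map (Polynomial.eval c) ∈ S

lemma NClosed.zero {S : Submonoid (Matrix (Fin n) (Fin n) ℂ)} (hS : NClosed S) (M : Matrix (Fin n) (Fin n) ℂ[X])
    (h : ∀ c : ℂ, c ≠ 0 → M.map (Polynomial.eval c) ∈ S) : M.map (Polynomial.eval 0) ∈ S := by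
  have e : ∀ c, (M.map fun p => p.comp (X + 1)).map (Polynomial.eval c) = M.map (Polynomial.eval (c + 1)) := by
    intro c
    ext a b
    simp only [Matrix.map_apply, eval_comp, eval_add, eval_X, eval_one]
  have h1 := hS (M.map fun p => p.comp (X + 1)) (fun m => by
    rw [e]
    exact h _ (Nat.cast_add_one_ne_zero m)) (-1)
  rwa [e, neg_add_cancel] at h1

section main

variable {ι : Type*} {g : ι → Matrix (Fin n) (Fin n) ℂ} (hJ : J.transpose = -J) (hdet : J.det ≠ 0)
  (hg1 : ∀ i, (g i - 1) ^ n = 0) (hgJ : ∀ i, (g i).transpose * J * g i = J) {u : Fin n → ℂ} (hu0 : u ≠ 0)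
  (S : Submonoid (Matrix (Fin n) (Fin n) ℂ)) (hgS : ∀ i, g i ∈ S) (huS : ∀ s, tv J u s ∈ S) (hcl : NClosed S)
  (hirr : ∀ W : Submodule ℂ (Fin n → ℂ), (∀ i, ∀ x ∈ W, g i *ᵥ x ∈ W) → W = ⊥ ∨ W = ⊤)

include hg1 hgS hcl in
lemma pw_mem (i : ι) (c : ℂ) : (pw (g i)).map (eval c) ∈ S :=
  hcl _ (fun m => by rw [pw_nat (hg1 i)]; exact pow_mem (hgS i) m) c

include hg1 hgJ hgS hcl in
lemma conj_mem3 {w : Fin n → ℂ} (hw : ∀ s, tv J w s ∈ S) (i : ι) (s : ℂ) : tv J (g i *ᵥ w) s ∈ S := by
  have h1 : g i * (pw (g i)).map (eval (-1)) = 1 := mul_eq_one_comm.1 (pw_neg (hg1 i))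
  rw [← tv_conj (g i) ((pw (g i)).map (eval (-1))) h1 (hgJ i)]
  exact mul_mem (mul_mem (hgS i) (hw s)) (pw_mem hg1 S hgS hcl i (-1))

include hg1 hgJ hgS hcl in
lemma pow_mem3 {w : Fin n → ℂ} (hw : ∀ s, tv J w s ∈ S) (i : ι) (m : ℕ) : ∀ s, tv J ((g i ^ m) *ᵥ w) s ∈ S := by
  induction m with
  | zero => intro s; rw [pow_zero, one_mulVec]; exact hw s
  | succ m ih =>
    intro s
    rw [pow_succ', ← mulVec_mulVec]
    exact conj_mem3 hg1 hgJ S hgS hcl ih i s

include hJ hdet hg1 hgJ hu0 hgS huS hcl hirr in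
lemma all_tv3 (x : Fin n → ℂ) (s : ℂ) : tv J x s ∈ S := by
  classical
  have hz := hcl.zero
  set P : Set (Fin n → ℂ) := {x | ∀ s, tv J x s ∈ S} with hP
  have huP : u ∈ P := huS
  have hPE : ∀ y ∈ P, ∀ i (m : ℕ), (g i ^ m) *ᵥ y ∈ P := fun y hy i m s => pow_mem3 hg1 hgJ S hgS hcl hy i m s
  have hPE1 : ∀ y ∈ P, ∀ i, g i *ᵥ y ∈ P := fun y hy i s => conj_mem3 hg1 hgJ S hgS hcl hy i s
  -- the span of all directions
  have hst : ∀ i, ∀ y ∈ Submodule.span ℂ P, g i *ᵥ y ∈ Submodule.span ℂ P := by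
    intro i y hy
    induction hy using Submodule.span_induction with
    | mem y hy => exact Submodule.subset_span (hPE1 y hy i)
    | zero => rw [mulVec_zero]; exact zero_mem _
    | add y z _ _ h1 h2 => rw [mulVec_add]; exact add_mem h1 h2
    | smul a y _ h1 => rw [mulVec_smul]; exact Submodule.smul_mem _ a h1
  have hspan : Submodule.span ℂ P = ⊤ := by
    rcases hirr (Submodule.span ℂ P) hst with h | h
    · exfalso
      apply hu0
      have : u ∈ Submodule.span ℂ P := Submodule.subset_span huP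
      rw [h] at this
      exact (Submodule.mem_bot ℂ).1 this
    · exact h
  -- a second direction
  obtain ⟨w, hwP, huw⟩ : ∃ w ∈ P, om J u w ≠ 0 := by
    by_contra hcon
    push Not at hcon
    apply hu0
    refine om_nondeg hdet fun w => ?_
    have hw : w ∈ Submodule.span ℂ P := by rw [hspan]; trivial
    induction hw using Submodule.span_induction with
    | mem y hy => exact hcon y hy
    | zero => unfold om; rw [mulVec_zero, dotProduct_zero]
    | add y z _ _ h1 h2 => rw [om_add, h1, h2, add_zero]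
    | smul a y _ h1 => rw [om_smul, h1, mul_zero]
  have hwu : om J w u ≠ 0 := by rw [om_skew hJ]; exact neg_ne_zero.2 huw
  -- a maximal subspace
  set 𝒰 : Set (Submodule ℂ (Fin n → ℂ)) := {U | u ∈ U ∧ w ∈ U ∧ ∀ x ∈ U, ∀ s, tv J x s ∈ S} with h𝒰
  have hne : 𝒰.Nonempty := by
    refine ⟨Submodule.span ℂ {u} ⊔ Submodule.span ℂ {w}, Submodule.mem_sup_left (Submodule.mem_span_singleton_self u),
      Submodule.mem_sup_right (Submodule.mem_span_singleton_self w), ?_⟩
    refine ext_sub hJ S hz (fun x hx s => ?_) hwP (Submodule.mem_span_singleton_self u) hwu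
    obtain ⟨c, rfl⟩ := Submodule.mem_span_singleton.1 hx
    rw [tv_smul]
    exact huS _
  obtain ⟨U, ⟨huU, hwU, hU⟩, hmax⟩ := set_has_maximal_iff_noetherian.2 (inferInstance : IsNoetherian ℂ (Fin n → ℂ)) 𝒰 hne
  have hdich : ∀ y ∈ P, y ∈ U ∨ ∀ z ∈ U, om J y z = 0 := by
    intro y hy
    by_contra hcon
    push Not at hcon
    obtain ⟨hyU, z, hz', hyz⟩ := hcon
    refine hmax (U ⊔ Submodule.span ℂ {y}) ⟨Submodule.mem_sup_left huU, Submodule.mem_sup_left hwU,
      ext_sub hJ S hz hU hy hz' hyz⟩ (lt_of_le_of_ne le_sup_left fun h => hyU ?_)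
    rw [h]
    exact Submodule.mem_sup_right (Submodule.mem_span_singleton_self y)
  have hstab1 : ∀ i, ∀ y ∈ U, (∃ z ∈ U, om J z y ≠ 0) → g i *ᵥ y ∈ U := by
    rintro i y hy ⟨z, hz', hzy⟩
    by_contra hcon
    obtain ⟨l, hl1, hl2⟩ := Submodule.exists_le_ker_of_notMem hcon
    set l2 : (Fin n → ℂ) →ₗ[ℂ] ℂ :=
      { toFun := fun x => om J z x, map_add' := om_add z, map_smul' := fun c x => om_smul c z x } with hl2d
    have hprod : lp (pw (g i)) y l * lp (pw (g i)) y l2 = 0 := by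
      refine zero_of_nat fun m => ?_
      rw [Polynomial.eval_mul, lp_eval, lp_eval, pw_nat (hg1 i)]
      rcases hdich _ (hPE y (hU y hy) i m) with h | h
      · rw [LinearMap.mem_ker.1 (hl2 h), zero_mul]
      · have h1 : l2 ((g i ^ m) *ᵥ y) = om J z ((g i ^ m) *ᵥ y) := rfl
        rw [h1, om_skew hJ, h z hz', neg_zero, mul_zero]
    rcases mul_eq_zero.1 hprod with h | h
    · apply hl1
      have h1 := lp_eval (pw (g i)) y l ((1 : ℕ) : ℂ)
      rw [h, Polynomial.eval_zero, pw_nat (hg1 i), pow_one] at h1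
      exact h1.symm
    · apply hzy
      have h1 := lp_eval (pw (g i)) y l2 ((0 : ℕ) : ℂ)
      rw [h, Polynomial.eval_zero, pw_nat (hg1 i), pow_zero, one_mulVec] at h1
      exact h1.symm
  have hstab : ∀ i, ∀ y ∈ U, g i *ᵥ y ∈ U := by
    intro i y hy
    by_cases h : ∃ z ∈ U, om J z y ≠ 0
    · exact hstab1 i y hy h
    · push Not at h
      have h1 : g i *ᵥ (y + u) ∈ U := by
        refine hstab1 i _ (U.add_mem hy huU) ⟨w, hwU, ?_⟩
        rw [om_add, h w hwU, zero_add]
        exact hwu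
      have h2 : g i *ᵥ u ∈ U := hstab1 i u huU ⟨w, hwU, hwu⟩
      have h3 : g i *ᵥ y = g i *ᵥ (y + u) - g i *ᵥ u := by rw [mulVec_add]; abel
      rw [h3]
      exact U.sub_mem h1 h2
  rcases hirr U hstab with h | h
  · exfalso
    rw [h] at huU
    exact hu0 ((Submodule.mem_bot ℂ).1 huU)
  · exact hU x (by rw [h]; trivial) s

include hJ hdet hg1 hgJ hu0 hgS huS hcl hirr in
/-- **Density.** -/
theorem sp_all3 (h : Matrix (Fin n) (Fin n) ℂ) (hh : h.transpose * J * h = J) : h ∈ S :=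
  sp_of_tv hJ hdet S (fun x s => all_tv3 hJ hdet hg1 hgJ hu0 S hgS huS hcl hirr x s) h hh

end main

/-! ### transvections -/

/-- an element of the symplectic group with `rank (g - 1) = 1` is a transvection -/
lemma exists_tv (hJ : J.transpose = -J) (hdet : J.det ≠ 0) {g : Matrix (Fin n) (Fin n) ℂ}
    (hg : g.transpose * J * g = J) (hr : (g - 1).rank = 1) : ∃ (u : Fin n → ℂ) (s : ℂ), u ≠ 0 ∧ s ≠ 0 ∧ g = tv J u s := by
  set N := g - 1 with hN
  have hg' : g = 1 + N := by rw [hN]; abel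
  obtain ⟨⟨u, hu⟩, hu0, huw⟩ := finrank_eq_one_iff'.1 (show Module.finrank ℂ (LinearMap.range N.mulVecLin) = 1 from hr)
  have hu0' : u ≠ 0 := fun h => hu0 (Subtype.ext h)
  have h1 : ∀ b, ∃ c : ℂ, c • u = N *ᵥ Pi.single b 1 := by
    intro b
    obtain ⟨c, hc⟩ := huw ⟨N *ᵥ Pi.single b 1, ⟨Pi.single b 1, rfl⟩⟩
    exact ⟨c, congrArg Subtype.val hc⟩
  choose l hl using h1
  have hNl : N = vecMulVec u l := by
    ext a b
    have h2 := congrFun (hl b) a
    rw [mulVec_single_one] at h2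
    rw [vecMulVec_apply, mul_comm]
    exact h2.symm
  have hl0 : l ≠ 0 := by
    intro h
    apply hu0'
    obtain ⟨x, hx⟩ := hu
    have h3 : N *ᵥ x = u := hx
    rw [← h3, hNl, h, vecMulVec_zero, zero_mulVec]
  set m : Fin n → ℂ := u ᵥ* J with hm
  have hm0 : m ≠ 0 := by
    intro h
    apply hu0'
    refine om_nondeg hdet fun w => ?_
    rw [om_eq, ← hm, h, zero_dotProduct]
  have hJu : J *ᵥ u = -m := by
    rw [hm, ← mulVec_transpose, hJ, neg_mulVec, neg_neg]
  have h4 : vecMulVec l m - vecMulVec m l = 0 := by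
    have h5 : g.transpose * J * g = J + (N.transpose * J + J * N + N.transpose * J * N) := by
      rw [hg', transpose_add, transpose_one, add_mul, one_mul, add_mul, mul_add, mul_add, mul_one, mul_one]
      abel
    rw [hg] at h5
    have h6 : N.transpose * J + J * N + N.transpose * J * N = 0 := by
      have := congrArg (fun M => M - J) h5
      simp only [sub_self, add_sub_cancel_left] at this
      exact this.symm
    have h7 : N.transpose * J = vecMulVec l m := by
      rw [hNl, transpose_vecMulVec, vecMulVec_mul]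
    have h8 : J * N = -vecMulVec m l := by
      rw [hNl, mul_vecMulVec, hJu, neg_vecMulVec]
    have h9 : N.transpose * J * N = 0 := by
      rw [h7, hNl, vecMulVec_mul_vecMulVec, hm, ← om_eq, om_self hJ, zero_smul, vecMulVec_zero]
    rw [h9, h7, h8, add_zero] at h6
    rw [sub_eq_add_neg]
    exact h6
  obtain ⟨b, hb⟩ : ∃ b, m b ≠ 0 := by
    by_contra hcon
    push Not at hcon
    exact hm0 (funext hcon)
  have h10 : l = (l b / m b) • m := by
    funext a
    have h11 := congrFun (congrFun h4 a) b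
    rw [Matrix.sub_apply, vecMulVec_apply, vecMulVec_apply, Matrix.zero_apply] at h11
    rw [Pi.smul_apply, smul_eq_mul]
    field_simp
    linear_combination h11
  refine ⟨u, l b / m b, hu0', ?_, ?_⟩
  · intro h
    rw [h, zero_smul] at h10
    exact hl0 h10
  · unfold tv
    rw [hg', hNl]
    congr 1
    rw [← hm]
    conv_lhs => rw [h10]
    rw [vecMulVec_smul]

lemma tv_mul (hJ : J.transpose = -J) (u : Fin n → ℂ) (s t : ℂ) : tv J u s * tv J u t = tv J u (s + t) := by
  have h : vecMulVec u (u ᵥ* J) * vecMulVec u (u ᵥ* J) = 0 := by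
    rw [vecMulVec_mul_vecMulVec, ← om_eq, om_self hJ, zero_smul, vecMulVec_zero]
  unfold tv
  rw [mul_add, add_mul, add_mul, smul_mul_smul_comm, h, add_smul]
  simp only [one_mul, mul_one, smul_zero, add_zero]
  abel

lemma tv_zero (u : Fin n → ℂ) : tv J u 0 = 1 := by
  unfold tv
  rw [zero_smul, add_zero]

lemma tv_pow (hJ : J.transpose = -J) (u : Fin n → ℂ) (s : ℂ) (m : ℕ) : tv J u s ^ m = tv J u (m * s) := by
  induction m with
  | zero => rw [pow_zero, Nat.cast_zero, zero_mul, tv_zero]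
  | succ m ih => rw [pow_succ, ih, tv_mul hJ]; congr 1; push_cast; ring

/-- the transvections as a matrix of polynomials -/
noncomputable def tvp (J : Matrix (Fin n) (Fin n) ℂ) (u : Fin n → ℂ) (s : ℂ) : Matrix (Fin n) (Fin n) ℂ[X] :=
  1 + (X * C s : ℂ[X]) • (vecMulVec u (u ᵥ* J)).map C

lemma tvp_eval (u : Fin n → ℂ) (s c : ℂ) : (tvp J u s).map (Polynomial.eval c) = tv J u (c * s) := by
  ext a b
  unfold tv tvp
  simp only [Matrix.map_apply, Matrix.add_apply, Matrix.smul_apply, smul_eq_mul, Polynomial.eval_add,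
    Polynomial.eval_mul, Polynomial.eval_X, Polynomial.eval_C]
  congr 1
  rw [Matrix.one_apply, Matrix.one_apply]
  split_ifs <;> simp

lemma tv_mem (hJ : J.transpose = -J) {S : Submonoid (Matrix (Fin n) (Fin n) ℂ)} (hcl : NClosed S) {u : Fin n → ℂ}
    {s : ℂ} (hs : s ≠ 0) (h : tv J u s ∈ S) (c : ℂ) : tv J u c ∈ S := by
  have h1 := hcl (tvp J u s) (fun m => by
    rw [tvp_eval, ← tv_pow hJ]
    exact pow_mem h m) (c / s)
  rwa [tvp_eval, div_mul_cancel₀ _ hs] at h1

end Pool.Agent.Y119.PLM
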