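import Pool.Agent.Y119.PLM.GReg
import Pool.Agent.Y119.PLM.Main

/-!
# The main theorem for torsors under arbitrary groups generated by polynomial curves
-/

set_option autoImplicit false
set_option linter.unusedSectionVars false

open Filter Topology Matrix NumberField

namespace Pool.Agent.Y119.PLM

open Pool.Agent.Y119.HY Pool.Agent.Y119.PL Pool.Agent.Y890.MV
open Pool.Agent.Y890.SP (Qbar exists_omega)
open Pool.Agent.Y124 (Cov)

variable {X κ : Type} [Fintype X] {n : κ → ℕ}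

/-- the monodromy is dense in `G`: all polynomials which vanish at the monodromy tuples vanish on `G` -/
def DenseIn (U : Set (X → ℂ)) (Y : (X → ℂ) → MT n) (G : Subgroup (MT n)ˣ) : Prop :=
  ∀ p : MvPolynomial (Ix n) ℂ, (∀ g, IsMon U Y g → pe p g = 0) → ∀ g ∈ G, pe p (g : MT n) = 0

/-- the exceptional points: `s` in `K ^ X`, of height at most `T`, in the compact set `InnerM U k`, such that some
polynomial `P` of partial degrees at most `k`, whose coefficients are combinations `∑ ξ i * c i` with integers `c i` of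
`K` all of whose conjugates are at most `T ^ k`, vanishes at `Y (s)` but not on the whole coset `Y (s) G` -/
def ExcG (G : Subgroup (MT n)ˣ) (U : Set (X → ℂ)) (Y : (X → ℂ) → MT n)
    (K : Type) [Field K] [NumberField K] (io : K →+* ℂ) (k : ℕ) (ξ : Fin k → ℂ) (T : ℝ) : Set (X → K) :=
  {s | (∀ i, Y120.HtLe K T (s i)) ∧ (fun i => io (s i)) ∈ InnerM U k ∧ ∃ P : MvPolynomial (Ix n) ℂ,
    (∀ y, P.degreeOf y ≤ k) ∧
    (∀ m, ∃ c : Fin k → 𝓞 K, (∀ i (φ : K →+* ℂ), ‖φ (c i : K)‖ ≤ T ^ (k : ℝ)) ∧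
      P.coeff m = ∑ i, ξ i * io (c i : K)) ∧
    pe P (Y fun i => io (s i)) = 0 ∧
    ∃ g ∈ G, pe P ((Y fun i => io (s i)) * (g : MT n)) ≠ 0}

/-- **Functional relations are invariant under the group.** -/
theorem gp_mem {U : Set (X → ℂ)} {Y : (X → ℂ) → MT n} (hU : IsPreconnected U)
    (hY : ∀ j a b, AnalyticOnNhd ℂ (fun x => Y x j a b) U) {G : Subgroup (MT n)ˣ} (hD : DenseIn U Y G)
    (g : (MT n)ˣ) (hg : g ∈ G) : (g : MT n) ∈ GalT U Y := by
  intro P hP x hx
  obtain ⟨p, hp⟩ : ∃ p : MvPolynomial (Ix n) ℂ, ∀ g, pe p g = vt P x (Y x * g) := by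
    refine ⟨MvPolynomial.eval₂ (MvPolynomial.C.comp (MvPolynomial.eval x))
      (fun i : Ix n => ∑ k, MvPolynomial.C (Y x i.1 i.2.1 k) * MvPolynomial.X ⟨i.1, k, i.2.2⟩) P, fun g => ?_⟩
    unfold pe vt
    rw [MvPolynomial.hom_eval₂]
    congr 1
    · ext <;> simp
    · funext i
      rw [map_sum, Pi.mul_apply, Matrix.mul_apply]
      refine Finset.sum_congr rfl fun k _ => ?_
      rw [map_mul, MvPolynomial.eval_C, MvPolynomial.eval_X]
  rw [← hp]
  refine hD p (fun h hh => ?_) g hg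
  rw [hp]
  exact mon_mem hU hY hh P hP x hx

variable [Fintype κ] [DecidableEq κ] {U : Set (X → ℂ)} {Y : (X → ℂ) → MT n}

lemma excG_sub {G : Subgroup (MT n)ˣ} (hsp : ∀ g ∈ G, ((g : (MT n)ˣ) : MT n) ∈ GalT U Y)
    {K : Type} [Field K] [NumberField K] (io : K →+* ℂ) {k : ℕ} (hk : 0 < k) (ξ : Fin k → ℂ) {T : ℝ} :
    ExcG G U Y K io k ξ T ⊆
      ExcM U (fun (i : Ix n) x => Y x i.1 i.2.1 i.2.2) (InnerM U k) K io (Xi n k ξ) k T := by
  classical
  rintro s ⟨hs, hin, P, hdeg, hcoef, hzero, g, hg, hneA⟩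
  choose c hc hc' using hcoef
  have hsU : (fun i => io (s i)) ∈ U := innerM_sub U hk hin
  refine ⟨hs, hin, fun p => c (Finsupp.equivFunOnFinite.symm fun y => (p.1 y : ℕ)) p.2, fun p φ => hc _ _ φ, ?_, ?_⟩
  · intro u
    have h1 := sum_expM hdeg (fun y : Ix n => (Y fun i => io (s i)) y.1 y.2.1 y.2.2)
    have h2 : MvPolynomial.eval (fun y : Ix n => (Y fun i => io (s i)) y.1 y.2.1 y.2.2) P = 0 := hzero
    rw [h2] at h1
    rw [← h1]
    refine Finset.sum_congr rfl fun l _ => ?_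
    rw [Xi_sum, hc']
  · rintro ⟨G', hG1, hG2⟩
    apply hneA
    set x0 : X → ℂ := fun i => io (s i) with hx0
    -- the relation as a polynomial
    set B : MvPolynomial (Ix n) (MvPolynomial X ℂ) :=
      ∑ l : Ix n → Fin (k + 1), MvPolynomial.C (∑ i, MvPolynomial.C (ξ i) *
        MvPolynomial.map (algebraMap Qbar ℂ) (G' (l, i))) * ∏ y, MvPolynomial.X y ^ (l y : ℕ) with hB
    have hBe : ∀ x Z, vt B x Z = ∑ l : Ix n → Fin (k + 1), (∑ i, ξ i * MvPolynomial.aeval x (G' (l, i))) *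
        ∏ y : Ix n, Z y.1 y.2.1 y.2.2 ^ (l y : ℕ) := by
      intro x Z
      rw [hB]
      unfold vt
      rw [MvPolynomial.eval₂_sum]
      refine Finset.sum_congr rfl fun l _ => ?_
      rw [MvPolynomial.eval₂_mul, MvPolynomial.eval₂_C, MvPolynomial.eval₂_prod]
      congr 1
      · rw [map_sum]
        refine Finset.sum_congr rfl fun i _ => ?_
        rw [map_mul, MvPolynomial.eval_C, MvPolynomial.eval_map, MvPolynomial.aeval_def]
      · refine Finset.prod_congr rfl fun y _ => ?_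
        rw [MvPolynomial.eval₂_pow, MvPolynomial.eval₂_X]
    have h1 := hsp g hg B (fun x hx => by
      rw [hBe]
      refine Eq.trans ?_ (hG2 x hx ())
      refine Finset.sum_congr rfl fun l _ => ?_
      rw [Xi_sum]) x0 hsU
    rw [hBe] at h1
    have h3 := sum_expM hdeg (fun y : Ix n => (Y x0 * (g : MT n)) y.1 y.2.1 y.2.2)
    show MvPolynomial.eval (fun y : Ix n => (Y x0 * (g : MT n)) y.1 y.2.1 y.2.2) P = 0
    refine h3.symm.trans (Eq.trans ?_ h1)
    refine Finset.sum_congr rfl fun l _ => ?_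
    congr 1
    rw [hc']
    refine Finset.sum_congr rfl fun i _ => ?_
    rw [hG1]

/-- few exceptional points: there is `ω → ∞` such that for all large `T`, all number fields `K` of degree at most
`ω T`, all embeddings and all complex numbers `ξ i`, `i < ω T`, the exceptional points lie on at most `T ^ (1 / ω T)`
hypersurfaces of degree at most `T ^ (1 / ω T)`, and there are at most `T ^ (1 / ω T) * N ^ (|X| - 1)` of them, `N` being
the number of elements of `K` of height at most `T` -/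
def Few (U : Set (X → ℂ)) (Y : (X → ℂ) → MT n) (G : Subgroup (MT n)ˣ) : Prop :=
  ∃ (ω : ℝ → ℕ) (T₀ : ℝ), Tendsto ω atTop atTop ∧ Monotone ω ∧ ∀ T, T₀ ≤ T → 0 < ω T ∧
    ∀ (K : Type) [Field K] [NumberField K], Module.finrank ℚ K ≤ ω T → ∀ (io : K →+* ℂ) (ξ : Fin (ω T) → ℂ),
      Cov ⌊T ^ ((ω T : ℝ)⁻¹)⌋₊ ⌊T ^ ((ω T : ℝ)⁻¹)⌋₊
        ((fun (s : X → K) i => io (s i)) '' ExcG G U Y K io (ω T) ξ T) ∧
      (ExcG G U Y K io (ω T) ξ T).Finite ∧
      ((ExcG G U Y K io (ω T) ξ T).ncard : ℝ) ≤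
        T ^ ((ω T : ℝ)⁻¹) * ({x : K | Y120.HtLe K T x}.ncard : ℝ) ^ (Fintype.card X - 1)

/-- **The main theorem, general groups.** -/
theorem few_of [DecidableEq X] [Nonempty X] (hU : IsPreconnected U) (hUo : IsOpen U) (hne : U.Nonempty)
    (hY : ∀ j a b, AnalyticOnNhd ℂ (fun x => Y x j a b) U) {G : Subgroup (MT n)ˣ} (hG : UGen G)
    (hval : ∀ x ∈ U, ∀ y ∈ U, ∃ g ∈ G, Y y = Y x * (g : MT n)) (hsp : ∀ g ∈ G, ((g : (MT n)ˣ) : MT n) ∈ GalT U Y) :
    Few U Y G := by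
  classical
  have hreg : RegularM U (fun (i : Ix n) x => Y x i.1 i.2.1 i.2.2) :=
    regularM_gen hU hUo hY hG hval hsp
  have hf : ∀ i : Ix n, AnalyticOnNhd ℂ ((fun (i : Ix n) x => Y x i.1 i.2.1 i.2.2) i) U :=
    fun i => hY i.1 i.2.1 i.2.2
  let S : ℕ → ℝ → Prop := fun k T => ∀ (K : Type) [Field K] [NumberField K], Module.finrank ℚ K ≤ k →
    ∀ (io : K →+* ℂ) (ξ : Fin k → ℂ),
      Cov ⌊T ^ ((k : ℝ)⁻¹)⌋₊ ⌊T ^ ((k : ℝ)⁻¹)⌋₊
          ((fun (s : X → K) i => io (s i)) '' ExcG G U Y K io k ξ T) ∧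
        (ExcG G U Y K io k ξ T).Finite ∧
        ((ExcG G U Y K io k ξ T).ncard : ℝ) ≤
          T ^ ((k : ℝ)⁻¹) * ({x : K | Y120.HtLe K T x}.ncard : ℝ) ^ (Fintype.card X - 1)
  refine exists_omega S fun k => ?_
  set τ : ℝ := ((k + 1 : ℕ) : ℝ)⁻¹ with hτ
  have hτ0 : 0 < τ := by positivity
  obtain ⟨D, C, T₀, hC, hT₀, H⟩ := excM_cov stmZ stmClose stmCharts hU hUo hne hf hreg (InnerM U (k + 1))
    (innerM_compact _ _) (innerM_sub _ (Nat.succ_pos k)) (k + 1) ((Ix n → Fin (k + 1 + 1)) × Fin (k + 1)) Unit (k + 1)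
    ((k + 1 : ℕ) : ℝ) (τ / 3) (by positivity)
  -- constants are powers of `T`
  have hpow : ∀ C : ℝ, 0 ≤ C → ∃ T₁ : ℝ, ∀ T, 1 ≤ T → T₁ ≤ T → C ≤ T ^ (τ / 3) := by
    intro C hC
    refine ⟨C ^ (3 * (k + 1)), fun T hT hT1 => ?_⟩
    have h4 : C = (C ^ (3 * (k + 1))) ^ (τ / 3) := by
      rw [← Real.rpow_natCast, ← Real.rpow_mul hC]
      have : ((3 * (k + 1) : ℕ) : ℝ) * (τ / 3) = 1 := by
        rw [hτ]
        push_cast
        have : ((k : ℝ) + 1) ≠ 0 := by positivity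
        field_simp
      rw [this, Real.rpow_one]
    rw [h4]
    exact Real.rpow_le_rpow (by positivity) hT1 (by positivity)
  obtain ⟨T₁, hT₁⟩ := hpow C hC
  obtain ⟨T₂, hT₂⟩ := hpow D (Nat.cast_nonneg _)
  refine ⟨max T₀ (max T₁ T₂), fun T hT K _ _ hK io ξ => ?_⟩
  have h0 : T₀ ≤ T := (le_max_left _ _).trans hT
  have h1 : T₁ ≤ T := ((le_max_left _ _).trans (le_max_right _ _)).trans hT
  have h2 : T₂ ≤ T := ((le_max_right _ _).trans (le_max_right _ _)).trans hT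
  have hT1 : 1 ≤ T := by linarith
  have hTp : 0 < T := by linarith
  have h3 := hT₁ T hT1 h1
  have h4 := hT₂ T hT1 h2
  have hcov0 := H K hK io (Xi n (k + 1) ξ) T h0
  have hsub := excG_sub (U := U) (Y := Y) hsp io (Nat.succ_pos k) ξ (T := T)
  have hcov := hcov0.mono le_rfl le_rfl (Set.image_mono hsub)
  have h5 : T ^ (τ / 3) * T ^ (τ / 3) ≤ T ^ τ := by
    rw [← Real.rpow_add hTp]
    exact Real.rpow_le_rpow_of_exponent_le hT1 (by linarith)
  have h6 : T ^ (τ / 3) ≤ T ^ τ := Real.rpow_le_rpow_of_exponent_le hT1 (by linarith)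
  have hm : C * T ^ (τ / 3) ≤ T ^ (τ / 3) * T ^ (τ / 3) := mul_le_mul_of_nonneg_right h3 (by positivity)
  refine ⟨hcov.mono ?_ ?_ (Set.Subset.refl _), ?_⟩
  · exact Nat.le_floor (h4.trans h6)
  · exact Nat.floor_mono (hm.trans h5)
  obtain ⟨h7, h8⟩ := cov_count io {x : K | Y120.HtLe K T x} (Y120.HtLe_fin K T) _ (fun s hs => hs.1) hcov
  refine ⟨h7, ?_⟩
  have h9 : ((⌊C * T ^ (τ / 3)⌋₊ : ℕ) : ℝ) ≤ T ^ (τ / 3) * T ^ (τ / 3) :=
    (Nat.floor_le (by positivity)).trans hm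
  have h10 : ((ExcG G U Y K io (k + 1) ξ T).ncard : ℝ) ≤
      (⌊C * T ^ (τ / 3)⌋₊ : ℝ) * (D * ({x : K | Y120.HtLe K T x}.ncard : ℝ) ^ (Fintype.card X - 1)) := by
    exact_mod_cast h8
  refine h10.trans ?_
  rw [← mul_assoc]
  refine mul_le_mul_of_nonneg_right ?_ (by positivity)
  calc (⌊C * T ^ (τ / 3)⌋₊ : ℝ) * (D : ℝ) ≤ (T ^ (τ / 3) * T ^ (τ / 3)) * T ^ (τ / 3) :=
        mul_le_mul h9 h4 (Nat.cast_nonneg _) (by positivity)
    _ = T ^ τ := by
        rw [← Real.rpow_add hTp, ← Real.rpow_add hTp]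
        congr 1
        ring

/-! ### the symplectic case -/

/-- the product of the symplectic groups -/
def symp (J : (j : κ) → Matrix (Fin (n j)) (Fin (n j)) ℂ) : Subgroup (MT n)ˣ where
  carrier := {g | ∀ j, ((g : MT n) j).transpose * J j * (g : MT n) j = J j}
  mul_mem' := by
    intro g h hg hh j
    rw [Units.val_mul, Pi.mul_apply]
    calc ((g : MT n) j * (h : MT n) j).transpose * J j * ((g : MT n) j * (h : MT n) j) =
          ((h : MT n) j).transpose * (((g : MT n) j).transpose * J j * (g : MT n) j) * (h : MT n) j := by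
            rw [transpose_mul]; simp only [Matrix.mul_assoc]
      _ = J j := by rw [hg j, hh j]
  one_mem' := fun j => by rw [Units.val_one, Pi.one_apply, transpose_one, one_mul, mul_one]
  inv_mem' := by
    intro g hg j
    have h1 : (g : MT n) j * ((g⁻¹ : (MT n)ˣ) : MT n) j = 1 := by
      rw [← Pi.mul_apply, Units.mul_inv, Pi.one_apply]
    calc (((g⁻¹ : (MT n)ˣ) : MT n) j).transpose * J j * ((g⁻¹ : (MT n)ˣ) : MT n) j =
          (((g⁻¹ : (MT n)ˣ) : MT n) j).transpose * (((g : MT n) j).transpose * J j * (g : MT n) j) *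
            ((g⁻¹ : (MT n)ˣ) : MT n) j := by rw [hg j]
      _ = ((g : MT n) j * ((g⁻¹ : (MT n)ˣ) : MT n) j).transpose * J j *
            ((g : MT n) j * ((g⁻¹ : (MT n)ˣ) : MT n) j) := by
            rw [transpose_mul]; simp only [Matrix.mul_assoc]
      _ = J j := by rw [h1, transpose_one, one_mul, mul_one]

lemma mem_symp' {J : (j : κ) → Matrix (Fin (n j)) (Fin (n j)) ℂ} {g : (MT n)ˣ} :
    g ∈ symp J ↔ ∀ j, ((g : MT n) j).transpose * J j * (g : MT n) j = J j := Iff.rfl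

/-- the units attached to isometries -/
noncomputable def unitOf {J : (j : κ) → Matrix (Fin (n j)) (Fin (n j)) ℂ} (hdet : ∀ j, (J j).det ≠ 0) (g : MT n)
    (hg : ∀ j, (g j).transpose * J j * g j = J j) : (MT n)ˣ :=
  ⟨g, fun j => (g j)⁻¹, funext fun j => (inv_isom (hdet j) (hg j)).1,
    funext fun j => mul_eq_one_comm.1 (inv_isom (hdet j) (hg j)).1⟩

lemma tv_single {J : (j : κ) → Matrix (Fin (n j)) (Fin (n j)) ℂ} (hJ : ∀ j, (J j).transpose = -J j) (j : κ)
    (v : Fin (n j) → ℂ) (c : ℂ) (k : κ) : ((Pi.mulSingle j (tv (J j) v c) : MT n) k).transpose * J k *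
        (Pi.mulSingle j (tv (J j) v c) : MT n) k = J k := by
  by_cases hk : k = j
  · subst hk
    rw [Pi.mulSingle_eq_same]
    exact tv_isom (hJ k) v c
  · rw [Pi.mulSingle_eq_of_ne hk, transpose_one, one_mul, mul_one]

lemma symp_ugen {J : (j : κ) → Matrix (Fin (n j)) (Fin (n j)) ℂ} (hJ : ∀ j, (J j).transpose = -J j)
    (hdet : ∀ j, (J j).det ≠ 0) : UGen (symp J) := by
  intro g hg
  set C : Set (MT n)ˣ := {h : (MT n)ˣ | ∃ M : (j : κ) → Matrix (Fin (n j)) (Fin (n j)) (Polynomial ℂ),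
    (∀ c : ℂ, ∃ k ∈ symp J, (k : MT n) = fun j => (M j).map (Polynomial.eval c)) ∧
    (fun j => (M j).map (Polynomial.eval 0) : MT n) = 1 ∧ (fun j => (M j).map (Polynomial.eval 1) : MT n) = h} with hC
  -- the submonoid of the matrices
  have h1 : (g : MT n) ∈ (Submonoid.closure C).map (Units.coeHom (MT n)) := by
    refine all_of_tv hJ hdet _ (fun j v s => ?_) _ (mem_symp'.1 hg)
    refine ⟨unitOf hdet _ (tv_single hJ j v s), Submonoid.subset_closure ?_, rfl⟩
    have hAe : ∀ c, (fun k => ((Pi.mulSingle j (tvp (J j) v s) : (k : κ) → Matrix (Fin (n k)) (Fin (n k))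
        (Polynomial ℂ)) k).map (Polynomial.eval c)) = (Pi.mulSingle j (tv (J j) v (c * s)) : MT n) := by
      intro c
      funext k
      by_cases h : k = j
      · subst h
        rw [Pi.mulSingle_eq_same, Pi.mulSingle_eq_same, tvp_eval]
      · rw [Pi.mulSingle_eq_of_ne h, Pi.mulSingle_eq_of_ne h]
        ext a b
        rw [Matrix.map_apply, Matrix.one_apply, Matrix.one_apply]
        split_ifs <;> simp
    refine ⟨Pi.mulSingle j (tvp (J j) v s), fun c => ?_, ?_, ?_⟩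
    · exact ⟨unitOf hdet _ (tv_single hJ j v (c * s)), mem_symp'.2 (tv_single hJ j v (c * s)), (hAe c).symm⟩
    · rw [hAe, zero_mul, tv_zero, Pi.mulSingle_one]
    · rw [hAe, one_mul]
      rfl
  obtain ⟨h, hh, he⟩ := h1
  have : h = g := Units.ext he
  rwa [← this]

end Pool.Agent.Y119.PLM
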