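import Pool.Agent.Y119.PLM.Dens
import Pool.Agent.Y890.MV.Ana

/-!
# Functional relations between several families over bases of any dimension: monodromy
-/

set_option autoImplicit false
set_option linter.unusedSectionVars false

open Filter Topology Matrix Polynomial

namespace Pool.Agent.Y119.PLM

open Pool.Agent.Y119.HY Pool.Agent.Y119.PL Pool.Agent.Y890.MV

/-- tuples of square matrices -/
abbrev MT {κ : Type} (n : κ → ℕ) : Type := (j : κ) → Matrix (Fin (n j)) (Fin (n j)) ℂ

/-- the indices of their entries -/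
abbrev Ix {κ : Type} (n : κ → ℕ) : Type := Σ j : κ, Fin (n j) × Fin (n j)

/-- **Analytic continuation**: `F` on `V` is obtained from `Y` on `U` by analytic continuation along a chain of
connected sets -/
inductive Cnt {X κ : Type} [Fintype X] {n : κ → ℕ} (U : Set (X → ℂ)) (Y : (X → ℂ) → MT n) :
    Set (X → ℂ) → ((X → ℂ) → MT n) → Prop
  | base : Cnt U Y U Y
  | step {V V' W : Set (X → ℂ)} {F F' : (X → ℂ) → MT n} : Cnt U Y V F → IsPreconnected V' →
      (∀ j a b, AnalyticOnNhd ℂ (fun x => F' x j a b) V') → IsOpen W → W.Nonempty → W ⊆ V → W ⊆ V' →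
      (∀ x ∈ W, F' x = F x) → Cnt U Y V' F'

/-- **Monodromy**: some analytic continuation of `Y` is `Y g` -/
def IsMon {X κ : Type} [Fintype X] {n : κ → ℕ} (U : Set (X → ℂ)) (Y : (X → ℂ) → MT n) (g : MT n) : Prop :=
  ∃ (V W : Set (X → ℂ)) (F : (X → ℂ) → MT n), Cnt U Y V F ∧ IsOpen W ∧ W.Nonempty ∧ W ⊆ V ∧ W ⊆ U ∧
    ∀ x ∈ W, F x = Y x * g

section
variable {X κ : Type} [Fintype X] {n : κ → ℕ}

/-- the value at `x` and at a tuple of matrices of a polynomial in the coordinates and the entries -/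
noncomputable def vt (P : MvPolynomial (Ix n) (MvPolynomial X ℂ)) (x : X → ℂ) (A : MT n) : ℂ :=
  MvPolynomial.eval₂ (MvPolynomial.eval x) (fun i : Ix n => A i.1 i.2.1 i.2.2) P

/-- the same for tuples of matrices of polynomials -/
noncomputable def vtp (P : MvPolynomial (Ix n) (MvPolynomial X ℂ)) (x : X → ℂ)
    (A : (j : κ) → Matrix (Fin (n j)) (Fin (n j)) ℂ[X]) : ℂ[X] :=
  MvPolynomial.eval₂ (Polynomial.C.comp (MvPolynomial.eval x)) (fun i : Ix n => A i.1 i.2.1 i.2.2) P

lemma eval_vtp (P : MvPolynomial (Ix n) (MvPolynomial X ℂ)) (x : X → ℂ)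
    (A : (j : κ) → Matrix (Fin (n j)) (Fin (n j)) ℂ[X]) (s : ℂ) :
    (vtp P x A).eval s = vt P x (fun j => (A j).map (Polynomial.eval s)) := by
  unfold vtp vt
  rw [← Polynomial.coe_evalRingHom s, MvPolynomial.hom_eval₂]
  congr 1
  ext <;> simp

/-- substitution `A ↦ A g` -/
noncomputable def sgt (g : MT n) (P : MvPolynomial (Ix n) (MvPolynomial X ℂ)) :
    MvPolynomial (Ix n) (MvPolynomial X ℂ) :=
  MvPolynomial.bind₁ (fun i : Ix n => ∑ k, MvPolynomial.X ⟨i.1, i.2.1, k⟩ *
    MvPolynomial.C (MvPolynomial.C (g i.1 k i.2.2))) P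

lemma vt_sgt (g : MT n) (P : MvPolynomial (Ix n) (MvPolynomial X ℂ)) (x : X → ℂ) (A : MT n) :
    vt (sgt g P) x A = vt P x (A * g) := by
  unfold vt sgt
  induction P using MvPolynomial.induction_on with
  | C a => simp
  | add p q hp hq => simp only [map_add, MvPolynomial.eval₂_add, hp, hq]
  | mul_X p i hp =>
    simp only [map_mul, MvPolynomial.eval₂_mul, hp, MvPolynomial.bind₁_X_right, MvPolynomial.eval₂_X,
      MvPolynomial.eval₂_sum, MvPolynomial.eval₂_C]
    congr 1
    simp [Matrix.mul_apply]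

/-- the relations -/
def IsRelT (U : Set (X → ℂ)) (Y : (X → ℂ) → MT n) (P : MvPolynomial (Ix n) (MvPolynomial X ℂ)) : Prop :=
  ∀ x ∈ U, vt P x (Y x) = 0

lemma vt_an {U : Set (X → ℂ)} {Y : (X → ℂ) → MT n} (hY : ∀ j a b, AnalyticOnNhd ℂ (fun x => Y x j a b) U)
    (P : MvPolynomial (Ix n) (MvPolynomial X ℂ)) : AnalyticOnNhd ℂ (fun x => vt P x (Y x)) U :=
  evM_an (f := fun (i : Ix n) x => Y x i.1 i.2.1 i.2.2) (fun i => hY i.1 i.2.1 i.2.2) P

lemma eq_on {U W : Set (X → ℂ)} (hU : IsPreconnected U) {f : (X → ℂ) → ℂ} (hf : AnalyticOnNhd ℂ f U)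
    (hW : IsOpen W) (hne : W.Nonempty) (hWU : W ⊆ U) (h : ∀ x ∈ W, f x = 0) : ∀ x ∈ U, f x = 0 := by
  obtain ⟨x0, hx0⟩ := hne
  refine hf.eqOn_zero_of_preconnected_of_eventuallyEq_zero hU (hWU hx0) ?_
  filter_upwards [hW.mem_nhds hx0] with x hx
  exact h x hx

/-- relations persist under analytic continuation -/
theorem cnt_rel {U V : Set (X → ℂ)} {Y F : (X → ℂ) → MT n} (h : Cnt U Y V F)
    {P : MvPolynomial (Ix n) (MvPolynomial X ℂ)} (hP : IsRelT U Y P) : IsRelT V F P := by
  induction h with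
  | base => exact hP
  | step h hV' hF' hW hne hWV hWV' he ih =>
    refine eq_on hV' (vt_an hF' P) hW hne hWV' fun x hx => ?_
    rw [he x hx]
    exact ih x (hWV hx)

/-- the tuples of matrices which preserve the relations -/
def GalT (U : Set (X → ℂ)) (Y : (X → ℂ) → MT n) : Submonoid (MT n) where
  carrier := {g | ∀ P, IsRelT U Y P → ∀ x ∈ U, vt P x (Y x * g) = 0}
  mul_mem' := by
    intro g h hg hh P hP x hx
    have h1 : IsRelT U Y (sgt h P) := fun y hy => by rw [vt_sgt]; exact hh P hP y hy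
    have h2 := hg _ h1 x hx
    rw [vt_sgt, mul_assoc] at h2
    exact h2
  one_mem' := by
    intro P hP x hx
    rw [mul_one]
    exact hP x hx

theorem mon_mem {U : Set (X → ℂ)} {Y : (X → ℂ) → MT n} (hU : IsPreconnected U)
    (hY : ∀ j a b, AnalyticOnNhd ℂ (fun x => Y x j a b) U) {g : MT n} (hg : IsMon U Y g) : g ∈ GalT U Y := by
  obtain ⟨V, W, F, hc, hW, hne, hWV, hWU, he⟩ := hg
  intro P hP
  have han : AnalyticOnNhd ℂ (fun x => vt P x (Y x * g)) U := by
    have h1 : (fun x => vt P x (Y x * g)) = fun x => vt (sgt g P) x (Y x) := by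
      funext x
      rw [vt_sgt]
    rw [h1]
    exact vt_an hY _
  refine eq_on hU han hW hne hWU fun x hx => ?_
  rw [← he x hx]
  exact cnt_rel hc hP x (hWV hx)

/-- the relations `(Aᵀ J' A - J) a b` -/
noncomputable def sympRel (j : κ) (J J' : Matrix (Fin (n j)) (Fin (n j)) ℂ) (a b : Fin (n j)) :
    MvPolynomial (Ix n) (MvPolynomial X ℂ) :=
  ∑ c, ∑ d, MvPolynomial.X ⟨j, c, a⟩ * MvPolynomial.C (MvPolynomial.C (J' c d)) * MvPolynomial.X ⟨j, d, b⟩ -
    MvPolynomial.C (MvPolynomial.C (J a b))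

lemma sympRel_eval (j : κ) (J J' : Matrix (Fin (n j)) (Fin (n j)) ℂ) (a b : Fin (n j)) (x : X → ℂ) (A : MT n) :
    vt (sympRel j J J' a b) x A = ((A j).transpose * J' * A j) a b - J a b := by
  unfold vt sympRel
  rw [sub_eq_add_neg, MvPolynomial.eval₂_add, MvPolynomial.eval₂_neg, MvPolynomial.eval₂_sum, ← sub_eq_add_neg]
  simp only [MvPolynomial.eval₂_sum, MvPolynomial.eval₂_mul, MvPolynomial.eval₂_X, MvPolynomial.eval₂_C,
    MvPolynomial.eval_C]
  congr 1
  rw [Matrix.mul_apply]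
  simp only [Matrix.mul_apply, Matrix.transpose_apply, Finset.sum_mul]
  rw [Finset.sum_comm]

theorem mem_symp {U : Set (X → ℂ)} {Y : (X → ℂ) → MT n} (hne : U.Nonempty)
    {J J' : (j : κ) → Matrix (Fin (n j)) (Fin (n j)) ℂ} (hsym : ∀ x ∈ U, ∀ j, (Y x j).transpose * J' j * Y x j = J j)
    {g : MT n} (hg : g ∈ GalT U Y) (j : κ) : (g j).transpose * J j * g j = J j := by
  obtain ⟨x, hx⟩ := hne
  have h1 : ((Y x * g) j).transpose * J' j * (Y x * g) j = J j := by
    ext a b
    have h2 := hg (sympRel j (J j) (J' j) a b) (fun y hy => by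
      rw [sympRel_eval, hsym y hy j, sub_self]) x hx
    rw [sympRel_eval] at h2
    exact sub_eq_zero.1 h2
  rw [Pi.mul_apply] at h1
  calc (g j).transpose * J j * g j = (g j).transpose * ((Y x j).transpose * J' j * Y x j) * g j := by rw [hsym x hx j]
    _ = (Y x j * g j).transpose * J' j * (Y x j * g j) := by rw [transpose_mul]; simp only [Matrix.mul_assoc]
    _ = J j := h1

/-! ### products of monodromies -/

lemma cnt_mul {U : Set (X → ℂ)} {Y : (X → ℂ) → MT n} {h : MT n} (h0 : Cnt U Y U (fun x => Y x * h))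
    {V : Set (X → ℂ)} {F : (X → ℂ) → MT n} (hc : Cnt U Y V F) : Cnt U Y V (fun x => F x * h) := by
  induction hc with
  | base => exact h0
  | @step V V' W F F' hc hV' hF' hW hne hWV hWV' he ih =>
    refine Cnt.step ih hV' ?_ hW hne hWV hWV' ?_
    · intro j a b
      have h1 : (fun x => (F' x * h) j a b) = fun x => ∑ k, F' x j a k * h j k b := by
        funext x
        rw [Pi.mul_apply, Matrix.mul_apply]
      rw [h1]
      exact Finset.analyticOnNhd_fun_sum _ fun k _ => (hF' j a k).mul analyticOnNhd_const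
    · intro x hx
      show F' x * h = F x * h
      rw [he x hx]

/-- monodromies compose -/
lemma mon_mul {U : Set (X → ℂ)} {Y : (X → ℂ) → MT n} (hU : IsPreconnected U)
    (hY : ∀ j a b, AnalyticOnNhd ℂ (fun x => Y x j a b) U) {g h : MT n} (hg : IsMon U Y g) (hh : IsMon U Y h) :
    IsMon U Y (g * h) := by
  obtain ⟨V, W, F, hc, hW, hne, hWV, hWU, he⟩ := hg
  obtain ⟨V', W', F', hc', hW', hne', hWV', hWU', he'⟩ := hh
  have h0 : Cnt U Y U (fun x => Y x * h) := by
    refine Cnt.step hc' hU ?_ hW' hne' hWV' hWU' fun x hx => (he' x hx).symm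
    intro j a b
    have h1 : (fun x => (Y x * h) j a b) = fun x => ∑ k, Y x j a k * h j k b := by
      funext x
      rw [Pi.mul_apply, Matrix.mul_apply]
    rw [h1]
    exact Finset.analyticOnNhd_fun_sum _ fun k _ => (hY j a k).mul analyticOnNhd_const
  refine ⟨V, W, fun x => F x * h, cnt_mul h0 hc, hW, hne, hWV, hWU, fun x hx => ?_⟩
  show F x * h = Y x * (g * h)
  rw [he x hx, mul_assoc]

lemma mon_one {U : Set (X → ℂ)} {Y : (X → ℂ) → MT n} (hUo : IsOpen U) (hne : U.Nonempty) : IsMon U Y 1 :=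
  ⟨U, U, Y, Cnt.base, hUo, hne, subset_rfl, subset_rfl, fun _ _ => (mul_one _).symm⟩

/-! ### the Zariski closure -/

/-- the value of a polynomial at a tuple of matrices -/
noncomputable def pe (p : MvPolynomial (Ix n) ℂ) (A : MT n) : ℂ :=
  MvPolynomial.eval (fun i : Ix n => A i.1 i.2.1 i.2.2) p

/-- the monodromy is dense in the product of the symplectic groups: all polynomials which vanish at the monodromy
tuples vanish on the product of the symplectic groups of the forms `J j` -/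
def DenseMon (U : Set (X → ℂ)) (Y : (X → ℂ) → MT n) (J : (j : κ) → Matrix (Fin (n j)) (Fin (n j)) ℂ) : Prop :=
  ∀ p : MvPolynomial (Ix n) ℂ, (∀ g, IsMon U Y g → pe p g = 0) →
    ∀ g : MT n, (∀ j, (g j).transpose * J j * g j = J j) → pe p g = 0

/-- right translation -/
noncomputable def tr (h : MT n) (p : MvPolynomial (Ix n) ℂ) : MvPolynomial (Ix n) ℂ :=
  MvPolynomial.bind₁ (fun i : Ix n => ∑ k, MvPolynomial.X ⟨i.1, i.2.1, k⟩ * MvPolynomial.C (h i.1 k i.2.2)) p

lemma pe_tr (h : MT n) (p : MvPolynomial (Ix n) ℂ) (A : MT n) : pe (tr h p) A = pe p (A * h) := by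
  unfold pe tr
  rw [← MvPolynomial.coe_aeval_eq_eval, ← MvPolynomial.coe_aeval_eq_eval]
  simp only [RingHom.coe_coe]
  rw [MvPolynomial.aeval_bind₁]
  congr 2
  funext i
  rw [map_sum, Pi.mul_apply, Matrix.mul_apply]
  refine Finset.sum_congr rfl fun k _ => ?_
  rw [map_mul, MvPolynomial.aeval_X, MvPolynomial.aeval_C]
  rfl

/-- left translation -/
noncomputable def tl (h : MT n) (p : MvPolynomial (Ix n) ℂ) : MvPolynomial (Ix n) ℂ :=
  MvPolynomial.bind₁ (fun i : Ix n => ∑ k, MvPolynomial.C (h i.1 i.2.1 k) * MvPolynomial.X ⟨i.1, k, i.2.2⟩) p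

lemma pe_tl (h : MT n) (p : MvPolynomial (Ix n) ℂ) (A : MT n) : pe (tl h p) A = pe p (h * A) := by
  unfold pe tl
  rw [← MvPolynomial.coe_aeval_eq_eval, ← MvPolynomial.coe_aeval_eq_eval]
  simp only [RingHom.coe_coe]
  rw [MvPolynomial.aeval_bind₁]
  congr 2
  funext i
  rw [map_sum, Pi.mul_apply, Matrix.mul_apply]
  refine Finset.sum_congr rfl fun k _ => ?_
  rw [map_mul, MvPolynomial.aeval_X, MvPolynomial.aeval_C]
  rfl

/-- the Zariski closure of the monodromy -/
def ZM {U : Set (X → ℂ)} {Y : (X → ℂ) → MT n} (hU : IsPreconnected U) (hUo : IsOpen U) (hne : U.Nonempty)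
    (hY : ∀ j a b, AnalyticOnNhd ℂ (fun x => Y x j a b) U) : Submonoid (MT n) where
  carrier := {g | ∀ p : MvPolynomial (Ix n) ℂ, (∀ h, IsMon U Y h → pe p h = 0) → pe p g = 0}
  mul_mem' := by
    intro g g' hg hg' p hp
    have h1 : ∀ h, IsMon U Y h → pe p (g * h) = 0 := by
      intro h hh
      rw [← pe_tr]
      refine hg _ fun k hk => ?_
      rw [pe_tr]
      exact hp _ (mon_mul hU hY hk hh)
    have h2 := hg' (tl g p) fun h hh => by rw [pe_tl]; exact h1 h hh
    rwa [pe_tl] at h2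
  one_mem' := fun p hp => hp 1 (mon_one hUo hne)

/-- the value of a polynomial at a tuple of matrices of polynomials -/
lemma exists_pe (p : MvPolynomial (Ix n) ℂ) (A : (j : κ) → Matrix (Fin (n j)) (Fin (n j)) ℂ[X]) :
    ∃ q : ℂ[X], ∀ s, q.eval s = pe p (fun j => (A j).map (Polynomial.eval s)) := by
  refine ⟨MvPolynomial.eval₂ Polynomial.C (fun i : Ix n => A i.1 i.2.1 i.2.2) p, fun s => ?_⟩
  unfold pe
  rw [← Polynomial.coe_evalRingHom s, MvPolynomial.hom_eval₂, ← MvPolynomial.eval₂_id]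
  congr 1
  ext
  simp

variable [DecidableEq κ]

lemma ZM_nclosed {U : Set (X → ℂ)} {Y : (X → ℂ) → MT n} (hU : IsPreconnected U) (hUo : IsOpen U) (hne : U.Nonempty)
    (hY : ∀ j a b, AnalyticOnNhd ℂ (fun x => Y x j a b) U) (j : κ) :
    NClosed ((ZM hU hUo hne hY).comap (MonoidHom.mulSingle (fun j => Matrix (Fin (n j)) (Fin (n j)) ℂ) j)) := by
  intro M hM c p hp
  have hAe : ∀ s, (fun k => ((Pi.mulSingle j M : (k : κ) → Matrix (Fin (n k)) (Fin (n k)) ℂ[X]) k).map
      (Polynomial.eval s)) = (Pi.mulSingle j (M.map (Polynomial.eval s)) : MT n) := by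
    intro s
    funext k
    by_cases h : k = j
    · subst h
      rw [Pi.mulSingle_eq_same, Pi.mulSingle_eq_same]
    · rw [Pi.mulSingle_eq_of_ne h, Pi.mulSingle_eq_of_ne h]
      ext a b
      rw [Matrix.map_apply, Matrix.one_apply, Matrix.one_apply]
      split_ifs <;> simp
  obtain ⟨q, hq⟩ := exists_pe p (Pi.mulSingle j M)
  have hq0 : q = 0 := by
    refine zero_of_nat fun m => ?_
    rw [hq, hAe]
    exact hM m p hp
  have h1 := hq c
  rw [hq0, hAe, Polynomial.eval_zero] at h1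
  exact h1.symm

/-- the family has big monodromy at the place `j`: the monodromy contains tuples `(1, .., h, .., 1)` (`h` in position
`j`) with unipotent `h` without a common invariant subspace, and such a tuple with `rank (h - 1) = 1` -/
def Big (U : Set (X → ℂ)) (Y : (X → ℂ) → MT n) (j : κ) : Prop :=
  (∀ W : Submodule ℂ (Fin (n j) → ℂ), (∀ h, IsMon U Y (Pi.mulSingle j h) → (h - 1) ^ n j = 0 → ∀ x ∈ W, h *ᵥ x ∈ W) →
    W = ⊥ ∨ W = ⊤) ∧
  ∃ h, IsMon U Y (Pi.mulSingle j h) ∧ (h - 1).rank = 1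

/-- **The criterion of Picard-Lefschetz type.** -/
theorem dense_of_big [Fintype κ] {U : Set (X → ℂ)} {Y : (X → ℂ) → MT n} (hU : IsPreconnected U) (hUo : IsOpen U)
    (hne : U.Nonempty) (hY : ∀ j a b, AnalyticOnNhd ℂ (fun x => Y x j a b) U)
    {J J' : (j : κ) → Matrix (Fin (n j)) (Fin (n j)) ℂ} (hJ : ∀ j, (J j).transpose = -J j) (hdet : ∀ j, (J j).det ≠ 0)
    (hsym : ∀ x ∈ U, ∀ j, (Y x j).transpose * J' j * Y x j = J j) (hB : ∀ j, Big U Y j) : DenseMon U Y J := by
  have hsp : ∀ j h, IsMon U Y (Pi.mulSingle j h) → h.transpose * J j * h = J j := by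
    intro j h hh
    have h1 := mem_symp hne hsym (mon_mem hU hY hh) j
    rwa [Pi.mulSingle_eq_same] at h1
  have h0 : ∀ j h, h.transpose * J j * h = J j → (Pi.mulSingle j h : MT n) ∈ ZM hU hUo hne hY := by
    intro j h hh
    obtain ⟨hirr, g0, hg0, hr⟩ := hB j
    set S := (ZM hU hUo hne hY).comap (MonoidHom.mulSingle (fun j => Matrix (Fin (n j)) (Fin (n j)) ℂ) j) with hS
    have hcl : NClosed S := ZM_nclosed hU hUo hne hY j
    have hmem : ∀ h, IsMon U Y (Pi.mulSingle j h) → h ∈ S := fun h hh p hp => hp _ hh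
    obtain ⟨u, s, hu0, hs, he⟩ := exists_tv (hJ j) (hdet j) (hsp j g0 hg0) hr
    have huS : ∀ c, tv (J j) u c ∈ S := tv_mem (hJ j) hcl hs (by rw [← he]; exact hmem g0 hg0)
    exact sp_all3 (ι := {h : Matrix (Fin (n j)) (Fin (n j)) ℂ // IsMon U Y (Pi.mulSingle j h) ∧ (h - 1) ^ n j = 0})
      (g := fun i => i.1) (hJ j) (hdet j) (fun i => i.2.2) (fun i => hsp j _ i.2.1) hu0 S (fun i => hmem _ i.2.1) huS hcl
      (fun W hW => hirr W fun h h1 h2 => hW ⟨h, h1, h2⟩) h hh
  intro p hp g hg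
  have h1 : ∀ s : Finset κ, (fun k => if k ∈ s then g k else 1 : MT n) ∈ ZM hU hUo hne hY := by
    intro s
    induction s using Finset.induction_on with
    | empty =>
      have : (fun k => if k ∈ (∅ : Finset κ) then g k else 1 : MT n) = 1 := by
        funext k
        simp
      rw [this]
      exact one_mem _
    | insert j s hj ih =>
      have : (fun k => if k ∈ insert j s then g k else 1 : MT n) =
          (fun k => if k ∈ s then g k else 1 : MT n) * Pi.mulSingle j (g j) := by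
        funext k
        rw [Pi.mul_apply]
        by_cases hk : k = j
        · subst hk
          rw [Pi.mulSingle_eq_same, if_pos (Finset.mem_insert_self _ _), if_neg hj, one_mul]
        · rw [Pi.mulSingle_eq_of_ne hk, mul_one]
          simp [hk]
      rw [this]
      exact mul_mem ih (h0 j (g j) (hg j))
  have h2 := h1 Finset.univ
  simp only [Finset.mem_univ, if_true] at h2
  exact h2 p hp

/-- **Functional relations are invariant under the product of the symplectic groups.** -/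
theorem sp_mem {U : Set (X → ℂ)} {Y : (X → ℂ) → MT n} (hU : IsPreconnected U)
    (hY : ∀ j a b, AnalyticOnNhd ℂ (fun x => Y x j a b) U)
    {J : (j : κ) → Matrix (Fin (n j)) (Fin (n j)) ℂ} (hD : DenseMon U Y J)
    (g : MT n) (hg : ∀ j, (g j).transpose * J j * g j = J j) : g ∈ GalT U Y := by
  intro P hP x hx
  -- the polynomial `g ↦ P (x, Y x g)`
  obtain ⟨p, hp⟩ : ∃ p : MvPolynomial (Ix n) ℂ, ∀ g, pe p g = vt P x (Y x * g) := by
    refine ⟨MvPolynomial.eval₂ (MvPolynomial.C.comp (MvPolynomial.eval x))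
      (fun i : Ix n => ∑ k, MvPolynomial.C (Y x i.1 i.2.1 k) * MvPolynomial.X ⟨i.1, k, i.2.2⟩) P, fun g => ?_⟩
    unfold pe vt
    rw [MvPolynomial.hom_eval₂]
    congr 1
    · ext <;> simp
    · funext i
      rw [map_sum, Pi.mul_apply, Matrix.mul_apply]
      refine Finset.sum_congr rfl fun k _ => ?_
      rw [map_mul, MvPolynomial.eval_C, MvPolynomial.eval_X]
  rw [← hp]
  refine hD p (fun h hh => ?_) g hg
  rw [hp]
  exact mon_mem hU hY hh P hP x hx

end

end Pool.Agent.Y119.PLM
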