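import Pool.Agent.Y119.PLM.GMain
import Pool.Agent.Y119.HY.Data2

/-!
# Hypergeometric families with logarithms: functional relations on products of slit discs
-/

set_option autoImplicit false
set_option linter.unusedSectionVars false

open Filter Topology Matrix

namespace Pool.Agent.Y119.PLM

open Pool.Agent.Y119.HY Pool.Agent.Y119.PL
open Pool.Agent.Y890.MV hiding ev

/-! ### one variable -/

/-- the slit disc -/
def Sd : Set ℂ := Metric.ball 0 1 ∩ Complex.slitPlane

lemma Sd_open : IsOpen Sd := Metric.isOpen_ball.inter Complex.isOpen_slitPlane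

lemma Sd_slit {z : ℂ} (h : z ∈ Sd) : z ∈ Complex.slitPlane := h.2

lemma Sd_ball {z : ℂ} (h : z ∈ Sd) : z ∈ Metric.ball (0 : ℂ) 1 := h.1

lemma real_mem_Sd {x : ℝ} (h0 : 0 < x) (h1 : x < 1) : (x : ℂ) ∈ Sd := by
  refine ⟨?_, Or.inl (by simpa using h0)⟩
  rw [Metric.mem_ball, dist_zero_right, Complex.norm_real, Real.norm_of_nonneg h0.le]
  exact h1

lemma Sd_preconn : IsPreconnected Sd := by
  have h : StarConvex ℝ (1 / 2 : ℂ) Sd := by
    intro y hy a b ha hb hab
    have h1 : (1 / 2 : ℂ) = ((1 / 2 : ℝ) : ℂ) := by push_cast; rfl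
    refine ⟨?_, ?_⟩
    · have h2 : (1 / 2 : ℂ) ∈ Metric.ball (0 : ℂ) 1 := by
        rw [h1]
        exact Sd_ball (real_mem_Sd (by norm_num) (by norm_num))
      exact (convex_ball (0 : ℂ) 1) h2 hy.1 ha hb hab
    · rw [Complex.mem_slitPlane_iff]
      have him : (a • (1 / 2 : ℂ) + b • y).im = b * y.im := by
        rw [h1]
        simp
      have hre : (a • (1 / 2 : ℂ) + b • y).re = a / 2 + b * y.re := by
        rw [h1]
        simp
        ring
      rcases Complex.mem_slitPlane_iff.1 hy.2 with h3 | h3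
      · left
        rw [hre]
        rcases eq_or_lt_of_le hb with h4 | h4
        · rw [← h4] at hab ⊢
          rw [add_zero] at hab
          rw [hab]
          norm_num
        · have := mul_pos h4 h3
          linarith
      · rcases eq_or_lt_of_le hb with h4 | h4
        · left
          rw [hre, ← h4]
          rw [← h4, add_zero] at hab
          rw [hab]
          norm_num
        · right
          rw [him]
          exact mul_ne_zero h4.ne' h3
  have h5 : (1 / 2 : ℂ) ∈ Sd := by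
    have h1 : (1 / 2 : ℂ) = ((1 / 2 : ℝ) : ℂ) := by push_cast; rfl
    rw [h1]
    exact real_mem_Sd (by norm_num) (by norm_num)
  exact (h.isPathConnected h5).isConnected.isPreconnected

/-- an analytic function on the slit disc which vanishes on `(0, 1)` is zero -/
lemma Sd_zero {f : ℂ → ℂ} (hf : AnalyticOnNhd ℂ f Sd) (h : ∀ x : ℝ, 0 < x → x < 1 → f x = 0) : ∀ z ∈ Sd, f z = 0 := by
  have hm : ((1 / 2 : ℝ) : ℂ) ∈ Sd := real_mem_Sd (by norm_num) (by norm_num)
  refine hf.eqOn_zero_of_preconnected_of_frequently_eq_zero Sd_preconn hm ?_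
  have h1 : Tendsto (fun x : ℝ => (x : ℂ)) (𝓝[≠] (1 / 2)) (𝓝[≠] (((1 / 2 : ℝ) : ℂ))) := by
    refine tendsto_nhdsWithin_iff.2 ⟨(Complex.continuous_ofReal.tendsto _).mono_left nhdsWithin_le_nhds, ?_⟩
    filter_upwards [self_mem_nhdsWithin] with x hx
    intro h2
    apply hx
    have h3 : (x : ℂ) = ((1 / 2 : ℝ) : ℂ) := h2
    exact Complex.ofReal_injective h3
  refine h1.frequently ?_
  refine Eventually.frequently ?_
  have h2 : ∀ᶠ x : ℝ in 𝓝 (1 / 2 : ℝ), 0 < x ∧ x < 1 :=
    (lt_mem_nhds (show (0 : ℝ) < 1 / 2 by norm_num)).and (gt_mem_nhds (show (1 / 2 : ℝ) < 1 by norm_num))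
  exact (h2.filter_mono nhdsWithin_le_nhds).mono fun x hx => h x hx.1 hx.2

variable {n : ℕ} {Q : Polynomial ℚ}

/-- the fundamental matrix -/
noncomputable def Yh (n : ℕ) (Q : Polynomial ℚ) : ℂ → Matrix (Fin n) (Fin n) ℂ := Yf (cm (Am n)) (Hc n Q)

lemma E_an (N : Matrix (Fin n) (Fin n) ℂ) (i j : Fin n) : AnalyticOnNhd ℂ (fun z => E N (Complex.log z) i j) Complex.slitPlane := by
  have h1 : (fun z => E N (Complex.log z) i j) = fun z => ∑ l ∈ Finset.range n, (Complex.log z ^ l / (l.factorial : ℂ)) * (N ^ l) i j := by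
    funext z
    unfold E
    rw [Matrix.sum_apply]
    rfl
  rw [h1]
  refine Finset.analyticOnNhd_fun_sum _ fun l _ => AnalyticOnNhd.mul ?_ analyticOnNhd_const
  intro z hz
  exact ((analyticAt_clog hz).pow l).div analyticAt_const (by exact_mod_cast l.factorial_ne_zero)

lemma Yh_an (hQ : QD n Q) (i j : Fin n) : AnalyticOnNhd ℂ (fun z => Yh n Q z i j) Sd := by
  have h1 : (fun z => Yh n Q z i j) = fun z => ∑ l, Hf (Hc n Q) z i l * E (cm (Am n)) (Complex.log z) l j := by
    funext z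
    unfold Yh Yf
    rw [Matrix.mul_apply]
  rw [h1]
  refine Finset.analyticOnNhd_fun_sum _ fun l _ => AnalyticOnNhd.mul ?_ ?_
  · exact (Hf_an (sol_c hQ) Ac_nil i l).mono Set.inter_subset_left
  · exact (E_an _ l j).mono Set.inter_subset_right

lemma Yh_form (hQ : QD n Q) {z : ℂ} (hz : z ∈ Sd) : (Yh n Q z).transpose * cm (Jm n Q) * Yh n Q z = cm (Jm n Q) := by
  have hs := sol_c hQ
  rw [cm_Bm hQ] at hs
  have hB : (-vecMulVec (uc n) (uc n ᵥ* cm (Jm n Q)) : Matrix (Fin n) (Fin n) ℂ).transpose * cm (Jm n Q) +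
      cm (Jm n Q) * (-vecMulVec (uc n) (uc n ᵥ* cm (Jm n Q))) = 0 := by
    rw [transpose_neg, neg_mul, mul_neg, ← neg_add, tv_skew (Jc_skew hQ), neg_zero]
  ext a b
  have h1 := Sd_zero (f := fun z => ((Yh n Q z).transpose * cm (Jm n Q) * Yh n Q z) a b - cm (Jm n Q) a b) (by
    refine AnalyticOnNhd.sub ?_ analyticOnNhd_const
    simp only [Matrix.mul_apply, Matrix.transpose_apply]
    refine Finset.analyticOnNhd_fun_sum _ fun l _ => AnalyticOnNhd.mul ?_ (Yh_an hQ l b)
    exact Finset.analyticOnNhd_fun_sum _ fun k _ => (Yh_an hQ k a).mul analyticOnNhd_const) (by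
    intro x hx hx1
    have h2 := self_pair Ac_nil Jc_rel hB hs (real_mem_Lens hx hx1)
    show ((Yh n Q x).transpose * cm (Jm n Q) * Yh n Q x) a b - cm (Jm n Q) a b = 0
    unfold Yh
    rw [h2, sub_self]) z hz
  exact sub_eq_zero.1 h1

lemma ev_an {Y : ℂ → Matrix (Fin n) (Fin n) ℂ} (hY : ∀ i j, AnalyticOnNhd ℂ (fun z => Y z i j) Sd) (c : ℂ)
    (g : Matrix (Fin n) (Fin n) ℂ) (P : MvPolynomial (Vr n) ℂ) :
    AnalyticOnNhd ℂ (fun z => ev P z (Complex.log z + c) (Y z * g)) Sd := by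
  unfold ev
  induction P using MvPolynomial.induction_on with
  | C a => simp only [MvPolynomial.eval_C]; exact analyticOnNhd_const
  | add p q hp hq => simp only [map_add]; exact hp.add hq
  | mul_X p i hp =>
    simp only [map_mul, MvPolynomial.eval_X]
    refine hp.mul ?_
    rcases i with _ | _ | ab
    · exact analyticOnNhd_id
    · exact fun z hz => (analyticAt_clog hz.2).add analyticAt_const
    · simp only [pt, Option.elim_some, Matrix.mul_apply]
      exact Finset.analyticOnNhd_fun_sum _ fun l _ => (hY _ l).mul analyticOnNhd_const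

/-- **Relations in one variable are invariant under `G_a × Sp`.** -/
theorem hyp_full (hQ : QD n Q) {P : MvPolynomial (Vr n) ℂ} (hP : ∀ z ∈ Sd, ev P z (Complex.log z) (Yh n Q z) = 0)
    (c : ℂ) (g : Matrix (Fin n) (Fin n) ℂ) (hg : g.transpose * cm (Jm n Q) * g = cm (Jm n Q)) :
    ∀ z ∈ Sd, ev P z (Complex.log z + c) (Yh n Q z * g) = 0 := by
  have hs := sol_c hQ
  refine Sd_zero (ev_an (Yh_an hQ) c g P) fun x hx hx1 => ?_
  have hP' : P ∈ Rel (Yf (cm (Am n)) (Hc n Q)) := fun y hy hy1 => hP y (real_mem_Sd hy hy1)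
  have h1 : sb c (E (cm (Am n)) c) P ∈ Rel (Yf (cm (Am n)) (Hc n Q)) := fun y hy hy1 => by
    rw [ev_sb]
    exact mono_zero Ac_nil hs c hP' hy hy1
  have h2 : (g * E (cm (Am n)) (-c)).transpose * cm (Jm n Q) * (g * E (cm (Am n)) (-c)) = cm (Jm n Q) := by
    calc (g * E (cm (Am n)) (-c)).transpose * cm (Jm n Q) * (g * E (cm (Am n)) (-c)) =
          (E (cm (Am n)) (-c)).transpose * (g.transpose * cm (Jm n Q) * g) * E (cm (Am n)) (-c) := by
            rw [transpose_mul]; simp only [Matrix.mul_assoc]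
      _ = cm (Jm n Q) := by rw [hg]; exact E_isom Ac_nil Jc_rel (-c)
  have h3 := hyp_invar hQ _ h2 _ h1 x hx hx1
  rw [ev_sb, Matrix.mul_assoc, Matrix.mul_assoc, ← E_add Ac_nil, neg_add_cancel, E_zero Ac_nil, Matrix.mul_one] at h3
  exact h3

end Pool.Agent.Y119.PLM
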