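import Pool.Agent.Y119.PLM.Hyp

/-!
# Products of hypergeometric families with logarithms
-/

set_option autoImplicit false
set_option linter.unusedSectionVars false

open Filter Topology Matrix

namespace Pool.Agent.Y119.PLM

open Pool.Agent.Y119.HY Pool.Agent.Y119.PL
open Pool.Agent.Y890.MV hiding ev

variable {ι : Type} [Fintype ι] [DecidableEq ι] {m : ι → ℕ} {Q : ι → Polynomial ℚ}

/-- the sizes of the blocks -/
@[reducible] def nn (m : ι → ℕ) : ι ⊕ ι → ℕ
  | Sum.inl i => m i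
  | Sum.inr _ => 2

/-- the unipotent matrix -/
def um2 {R : Type} [CommRing R] (a : R) : Matrix (Fin 2) (Fin 2) R := !![1, a; 0, 1]

lemma um2_mul {R : Type} [CommRing R] (a b : R) : um2 a * um2 b = um2 (a + b) := by
  unfold um2
  ext i j
  fin_cases i <;> fin_cases j <;> simp [Matrix.mul_apply, Fin.sum_univ_two, add_comm]

lemma um2_zero {R : Type} [CommRing R] : um2 (0 : R) = 1 := by
  unfold um2
  ext i j
  fin_cases i <;> fin_cases j <;> simp

/-- the period matrices -/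
noncomputable def YY (m : ι → ℕ) (Q : ι → Polynomial ℚ) (x : ι → ℂ) : MT (nn m)
  | Sum.inl i => Yh (m i) (Q i) (x i)
  | Sum.inr i => um2 (Complex.log (x i))

/-- the product of slit discs -/
def Ud (ι : Type) : Set (ι → ℂ) := {x | ∀ i, x i ∈ Sd}

lemma Ud_eq : Ud ι = Set.pi Set.univ fun _ => Sd := by
  ext x
  simp [Ud]

lemma Ud_open : IsOpen (Ud ι) := by
  rw [Ud_eq]
  exact isOpen_set_pi Set.finite_univ fun _ _ => Sd_open

lemma Ud_preconn : IsPreconnected (Ud ι) := by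
  rw [Ud_eq]
  exact isPreconnected_univ_pi fun _ => Sd_preconn

lemma Ud_ne : (Ud ι).Nonempty := ⟨fun _ => ((1 / 2 : ℝ) : ℂ), fun _ => real_mem_Sd (by norm_num) (by norm_num)⟩

lemma proj_an (i : ι) (x : ι → ℂ) : AnalyticAt ℂ (fun x : ι → ℂ => x i) x :=
  (ContinuousLinearMap.proj (R := ℂ) (φ := fun _ : ι => ℂ) i).analyticAt x

lemma yh_comp (hQ : ∀ i, QD (m i) (Q i)) (i : ι) (a b : Fin (m i)) :
    AnalyticOnNhd ℂ (fun x : ι → ℂ => Yh (m i) (Q i) (x i) a b) (Ud ι) := fun x hx =>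
  AnalyticAt.fun_comp (g := fun z => Yh (m i) (Q i) z a b) (f := fun x : ι → ℂ => x i)
      (Yh_an (hQ i) a b _ (hx i)) (proj_an i x)

lemma log_comp (i : ι) : AnalyticOnNhd ℂ (fun x : ι → ℂ => Complex.log (x i)) (Ud ι) := fun x hx =>
  AnalyticAt.fun_comp (g := Complex.log) (f := fun x : ι → ℂ => x i) (analyticAt_clog (Sd_slit (hx i))) (proj_an i x)

lemma um2_comp (i : ι) (a b : Fin 2) :
    AnalyticOnNhd ℂ (fun x : ι → ℂ => (um2 (Complex.log (x i)) : Matrix (Fin 2) (Fin 2) ℂ) a b) (Ud ι) := by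
  unfold um2
  fin_cases a <;> fin_cases b
  · exact analyticOnNhd_const
  · exact log_comp i
  · exact analyticOnNhd_const
  · exact analyticOnNhd_const

lemma YY_an (hQ : ∀ i, QD (m i) (Q i)) : ∀ (k : ι ⊕ ι) (a b : Fin (nn m k)),
    AnalyticOnNhd ℂ (fun x => YY m Q x k a b) (Ud ι)
  | Sum.inl i, a, b => yh_comp hQ i a b
  | Sum.inr i, a, b => um2_comp i a b

/-- isometries of the form -/
def isoJ (n : ℕ) (Q : Polynomial ℚ) (h : Matrix (Fin n) (Fin n) ℂ) : Prop :=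
  h.transpose * cm (Jm n Q) * h = cm (Jm n Q)

lemma isoJ_mul {n : ℕ} {Q : Polynomial ℚ} {g h : Matrix (Fin n) (Fin n) ℂ} (hg : isoJ n Q g) (hh : isoJ n Q h) :
    isoJ n Q (g * h) := by
  unfold isoJ at *
  calc (g * h).transpose * cm (Jm n Q) * (g * h) = h.transpose * (g.transpose * cm (Jm n Q) * g) * h := by
            rw [transpose_mul]; simp only [Matrix.mul_assoc]
      _ = _ := by rw [hg, hh]

lemma isoJ_one {n : ℕ} {Q : Polynomial ℚ} : isoJ n Q 1 := by
  unfold isoJ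
  rw [transpose_one, one_mul, mul_one]

lemma isoJ_inv {n : ℕ} {Q : Polynomial ℚ} (hQ : QD n Q) {g : Matrix (Fin n) (Fin n) ℂ} (hg : isoJ n Q g) :
    ∃ h, g * h = 1 ∧ h * g = 1 ∧ isoJ n Q h := by
  obtain ⟨h1, h2⟩ := inv_isom (J := cm (Jm n Q)) (Jc_det hQ) (g := g) hg
  exact ⟨g⁻¹, h1, mul_eq_one_comm.1 h1, h2⟩

/-- unipotent matrices -/
def isU (h : Matrix (Fin 2) (Fin 2) ℂ) : Prop := ∃ a : ℂ, h = um2 a

lemma isU_mul {g h : Matrix (Fin 2) (Fin 2) ℂ} (hg : isU g) (hh : isU h) : isU (g * h) := by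
  obtain ⟨a, rfl⟩ := hg
  obtain ⟨b, rfl⟩ := hh
  exact ⟨a + b, um2_mul a b⟩

lemma isU_inv {g : Matrix (Fin 2) (Fin 2) ℂ} (hg : isU g) : ∃ h, g * h = 1 ∧ h * g = 1 ∧ isU h := by
  obtain ⟨a, rfl⟩ := hg
  refine ⟨um2 (-a), ?_, ?_, ⟨-a, rfl⟩⟩
  · rw [um2_mul, add_neg_cancel, um2_zero]
  · rw [um2_mul, neg_add_cancel, um2_zero]

/-- the condition in the blocks -/
def good (m : ι → ℕ) (Q : ι → Polynomial ℚ) : (k : ι ⊕ ι) → Matrix (Fin (nn m k)) (Fin (nn m k)) ℂ → Prop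
  | Sum.inl i => isoJ (m i) (Q i)
  | Sum.inr _ => isU

lemma good_mul : ∀ {k : ι ⊕ ι} {g h : Matrix (Fin (nn m k)) (Fin (nn m k)) ℂ}, good m Q k g → good m Q k h →
    good m Q k (g * h)
  | Sum.inl _, _, _, hg, hh => isoJ_mul hg hh
  | Sum.inr _, _, _, hg, hh => isU_mul hg hh

lemma good_one : ∀ k : ι ⊕ ι, good m Q k 1
  | Sum.inl _ => isoJ_one
  | Sum.inr _ => ⟨0, um2_zero.symm⟩

lemma good_inv (hQ : ∀ i, QD (m i) (Q i)) : ∀ {k : ι ⊕ ι} {g : Matrix (Fin (nn m k)) (Fin (nn m k)) ℂ},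
    good m Q k g → ∃ h, g * h = 1 ∧ h * g = 1 ∧ good m Q k h
  | Sum.inl i, _, hg => isoJ_inv (hQ i) hg
  | Sum.inr _, _, hg => isU_inv hg

/-- the group -/
def Gd (m : ι → ℕ) (Q : ι → Polynomial ℚ) (hQ : ∀ i, QD (m i) (Q i)) : Subgroup (MT (nn m))ˣ where
  carrier := {g | ∀ k, good m Q k ((g : MT (nn m)) k)}
  mul_mem' := fun hg hh k => good_mul (hg k) (hh k)
  one_mem' := fun k => good_one k
  inv_mem' := by
    intro g hg k
    obtain ⟨h, h1, h2, h3⟩ := good_inv hQ (hg k)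
    have h4 : (g : MT (nn m)) k * ((g⁻¹ : (MT (nn m))ˣ) : MT (nn m)) k = 1 := by
      rw [← Pi.mul_apply, Units.mul_inv, Pi.one_apply]
    have h5 : ((g⁻¹ : (MT (nn m))ˣ) : MT (nn m)) k = h := by
      calc ((g⁻¹ : (MT (nn m))ˣ) : MT (nn m)) k = (h * (g : MT (nn m)) k) * ((g⁻¹ : (MT (nn m))ˣ) : MT (nn m)) k := by
            rw [h2, one_mul]
        _ = h := by rw [mul_assoc, h4, mul_one]
    show good m Q k (((g⁻¹ : (MT (nn m))ˣ) : MT (nn m)) k)
    rw [h5]
    exact h3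

lemma mem_Gd {hQ : ∀ i, QD (m i) (Q i)} {g : (MT (nn m))ˣ} : g ∈ Gd m Q hQ ↔ ∀ k, good m Q k ((g : MT (nn m)) k) := Iff.rfl

/-- the element of the group with given good blocks -/
lemma exists_unit (hQ : ∀ i, QD (m i) (Q i)) (g : MT (nn m)) (hg : ∀ k, good m Q k (g k)) :
    ∃ u ∈ Gd m Q hQ, (u : MT (nn m)) = g := by
  choose h h1 h2 h3 using fun k => good_inv hQ (hg k)
  exact ⟨⟨g, h, funext h1, funext h2⟩, hg, rfl⟩

/-- blocks determine elements -/
lemma all_blocks {n : ι ⊕ ι → ℕ} (S : Submonoid (MT n)) (g : MT n) (h : ∀ k, (Pi.mulSingle k (g k) : MT n) ∈ S) : g ∈ S := by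
  have h1 : ∀ s : Finset (ι ⊕ ι), (fun k => if k ∈ s then g k else 1 : MT n) ∈ S := by
    intro s
    induction s using Finset.induction_on with
    | empty =>
      have : (fun k => if k ∈ (∅ : Finset (ι ⊕ ι)) then g k else 1 : MT n) = 1 := by
        funext k
        simp
      rw [this]
      exact one_mem _
    | insert j s hj ih =>
      have : (fun k => if k ∈ insert j s then g k else 1 : MT n) =
          (fun k => if k ∈ s then g k else 1 : MT n) * Pi.mulSingle j (g j) := by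
        funext k
        rw [Pi.mul_apply]
        by_cases hk : k = j
        · subst hk
          rw [Pi.mulSingle_eq_same, if_pos (Finset.mem_insert_self _ _), if_neg hj, one_mul]
        · rw [Pi.mulSingle_eq_of_ne hk, mul_one]
          simp [hk]
      rw [this]
      exact mul_mem ih (h j)
  have h2 := h1 Finset.univ
  simpa using h2

lemma single_good (k : ι ⊕ ι) (h : Matrix (Fin (nn m k)) (Fin (nn m k)) ℂ) (hh : good m Q k h) (l : ι ⊕ ι) :
    good m Q l ((Pi.mulSingle k h : MT (nn m)) l) := by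
  by_cases hl : l = k
  · subst hl
    rw [Pi.mulSingle_eq_same]
    exact hh
  · rw [Pi.mulSingle_eq_of_ne hl]
    exact good_one l

lemma block_l {n : ℕ} {Q : Polynomial ℚ} (hQ : QD n Q) (S : Submonoid (Matrix (Fin n) (Fin n) ℂ))
    (h : ∀ M : Matrix (Fin n) (Fin n) (Polynomial ℂ), (∀ c, isoJ n Q (M.map (Polynomial.eval c))) →
      M.map (Polynomial.eval 0) = 1 → M.map (Polynomial.eval 1) ∈ S) (g : Matrix (Fin n) (Fin n) ℂ)
    (hg : isoJ n Q g) : g ∈ S := by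
  refine sp_of_tv (Jc_skew hQ) (Jc_det hQ) S (fun v s => ?_) g hg
  have h2 := h (tvp (cm (Jm n Q)) v s) (fun c => by
    rw [tvp_eval]
    exact tv_isom (Jc_skew hQ) v (c * s)) (by rw [tvp_eval, zero_mul]; exact tv_zero v)
  rw [tvp_eval, one_mul] at h2
  exact h2

lemma block_r (S : Submonoid (Matrix (Fin 2) (Fin 2) ℂ))
    (h : ∀ M : Matrix (Fin 2) (Fin 2) (Polynomial ℂ), (∀ c, isU (M.map (Polynomial.eval c))) →
      M.map (Polynomial.eval 0) = 1 → M.map (Polynomial.eval 1) ∈ S) (g : Matrix (Fin 2) (Fin 2) ℂ)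
    (hg : isU g) : g ∈ S := by
  obtain ⟨a, rfl⟩ := hg
  have e : ∀ c : ℂ, (um2 (Polynomial.X * Polynomial.C a) : Matrix (Fin 2) (Fin 2) (Polynomial ℂ)).map
      (Polynomial.eval c) = um2 (c * a) := by
    intro c
    unfold um2
    ext i j
    fin_cases i <;> fin_cases j
    · simp
    · simp only [Matrix.map_apply]
      show (Polynomial.X * Polynomial.C a).eval c = c * a
      rw [Polynomial.eval_mul, Polynomial.eval_X, Polynomial.eval_C]
    · simp
    · simp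
  have h2 := h (um2 (Polynomial.X * Polynomial.C a)) (fun c => ⟨c * a, e c⟩) (by rw [e, zero_mul, um2_zero])
  rwa [e, one_mul] at h2

theorem Gd_ugen (hQ : ∀ i, QD (m i) (Q i)) : UGen (Gd m Q hQ) := by
  intro g hg
  set C : Set (MT (nn m))ˣ := {h : (MT (nn m))ˣ | ∃ M : (j : ι ⊕ ι) → Matrix (Fin (nn m j)) (Fin (nn m j)) (Polynomial ℂ),
    (∀ c : ℂ, ∃ k ∈ Gd m Q hQ, (k : MT (nn m)) = fun j => (M j).map (Polynomial.eval c)) ∧
    (fun j => (M j).map (Polynomial.eval 0) : MT (nn m)) = 1 ∧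
    (fun j => (M j).map (Polynomial.eval 1) : MT (nn m)) = h} with hC
  -- curves in one block
  have key : ∀ (k : ι ⊕ ι) (M : Matrix (Fin (nn m k)) (Fin (nn m k)) (Polynomial ℂ)),
      (∀ c, good m Q k (M.map (Polynomial.eval c))) → M.map (Polynomial.eval 0) = 1 →
      (Pi.mulSingle k (M.map (Polynomial.eval 1)) : MT (nn m)) ∈ (Submonoid.closure C).map (Units.coeHom (MT (nn m))) := by
    intro k M hM hM0
    have hAe : ∀ c, (fun l => ((Pi.mulSingle k M : (l : ι ⊕ ι) → Matrix (Fin (nn m l)) (Fin (nn m l))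
        (Polynomial ℂ)) l).map (Polynomial.eval c)) = (Pi.mulSingle k (M.map (Polynomial.eval c)) : MT (nn m)) := by
      intro c
      funext l
      by_cases h : l = k
      · subst h
        rw [Pi.mulSingle_eq_same, Pi.mulSingle_eq_same]
      · rw [Pi.mulSingle_eq_of_ne h, Pi.mulSingle_eq_of_ne h]
        ext a b
        rw [Matrix.map_apply, Matrix.one_apply, Matrix.one_apply]
        split_ifs <;> simp
    obtain ⟨u, hu, hu'⟩ := exists_unit hQ _ (single_good k _ (hM 1))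
    refine ⟨u, Submonoid.subset_closure ⟨Pi.mulSingle k M, fun c => ?_, ?_, ?_⟩, hu'⟩
    · obtain ⟨v, hv, hv'⟩ := exists_unit hQ _ (single_good k _ (hM c))
      exact ⟨v, hv, hv'.trans (hAe c).symm⟩
    · rw [hAe, hM0, Pi.mulSingle_one]
    · rw [hAe]
      exact hu'.symm
  set T : Submonoid (MT (nn m)) := (Submonoid.closure C).map (Units.coeHom (MT (nn m))) with hT
  have hblock : ∀ (k : ι ⊕ ι) (h : Matrix (Fin (nn m k)) (Fin (nn m k)) ℂ), good m Q k h → (Pi.mulSingle k h : MT (nn m)) ∈ T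
    | Sum.inl i, h, hh => block_l (hQ i) (T.comap (MonoidHom.mulSingle (fun k => Matrix (Fin (nn m k)) (Fin (nn m k)) ℂ)
        (Sum.inl i))) (fun M hM hM0 => key (Sum.inl i) M hM hM0) h hh
    | Sum.inr i, h, hh => block_r (T.comap (MonoidHom.mulSingle (fun k => Matrix (Fin (nn m k)) (Fin (nn m k)) ℂ)
        (Sum.inr i))) (fun M hM hM0 => key (Sum.inr i) M hM hM0) h hh
  have h1 : (g : MT (nn m)) ∈ T := all_blocks _ _ fun k => hblock k _ (mem_Gd.1 hg k)
  obtain ⟨h, hh, he⟩ := h1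
  have : h = g := Units.ext he
  rwa [← this]

end Pool.Agent.Y119.PLM
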