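import Pool.Agent.Y119.PLM.Hyp2

/-!
# Products of hypergeometric families with logarithms: invariance of the relations
-/

set_option autoImplicit false
set_option linter.unusedSectionVars false

open Filter Topology Matrix

namespace Pool.Agent.Y119.PLM

open Pool.Agent.Y119.HY Pool.Agent.Y119.PL
open Pool.Agent.Y890.MV hiding ev

variable {ι : Type} [Fintype ι] [DecidableEq ι] {m : ι → ℕ} {Q : ι → Polynomial ℚ}

/-- replace the blocks of index `i` -/
def upd {R : Type} (i : ι) (T : (k : ι ⊕ ι) → Matrix (Fin (nn m k)) (Fin (nn m k)) R)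
    (A : Matrix (Fin (m i)) (Fin (m i)) R) (B : Matrix (Fin 2) (Fin 2) R) :
    (k : ι ⊕ ι) → Matrix (Fin (nn m k)) (Fin (nn m k)) R :=
  Function.update (Function.update T (Sum.inl i) A) (Sum.inr i) B

lemma upd_inl {R : Type} (i : ι) (T : (k : ι ⊕ ι) → Matrix (Fin (nn m k)) (Fin (nn m k)) R)
    (A : Matrix (Fin (m i)) (Fin (m i)) R) (B : Matrix (Fin 2) (Fin 2) R) : upd i T A B (Sum.inl i) = A := by
  unfold upd
  rw [Function.update_of_ne (by simp), Function.update_self]

lemma upd_inr {R : Type} (i : ι) (T : (k : ι ⊕ ι) → Matrix (Fin (nn m k)) (Fin (nn m k)) R)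
    (A : Matrix (Fin (m i)) (Fin (m i)) R) (B : Matrix (Fin 2) (Fin 2) R) : upd i T A B (Sum.inr i) = B := by
  unfold upd
  rw [Function.update_self]

lemma upd_ne_inl {R : Type} {i j : ι} (h : j ≠ i) (T : (k : ι ⊕ ι) → Matrix (Fin (nn m k)) (Fin (nn m k)) R)
    (A : Matrix (Fin (m i)) (Fin (m i)) R) (B : Matrix (Fin 2) (Fin 2) R) :
    upd i T A B (Sum.inl j) = T (Sum.inl j) := by
  unfold upd
  rw [Function.update_of_ne (by simp), Function.update_of_ne (by simpa using h)]

lemma upd_ne_inr {R : Type} {i j : ι} (h : j ≠ i) (T : (k : ι ⊕ ι) → Matrix (Fin (nn m k)) (Fin (nn m k)) R)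
    (A : Matrix (Fin (m i)) (Fin (m i)) R) (B : Matrix (Fin 2) (Fin 2) R) :
    upd i T A B (Sum.inr j) = T (Sum.inr j) := by
  unfold upd
  rw [Function.update_of_ne (by simpa using h), Function.update_of_ne (by simp)]

/-- the index of a block -/
def bix : ι ⊕ ι → ι
  | Sum.inl i => i
  | Sum.inr i => i

/-- the part of `g` in the blocks of `s` -/
def part (g : MT (nn m)) (s : Finset ι) : MT (nn m) := fun k => if bix k ∈ s then g k else 1

lemma part_pos {g : MT (nn m)} {s : Finset ι} {k : ι ⊕ ι} (h : bix k ∈ s) : part g s k = g k := if_pos h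

lemma part_neg {g : MT (nn m)} {s : Finset ι} {k : ι ⊕ ι} (h : bix k ∉ s) : part g s k = 1 := if_neg h

lemma part_insert_ne {g : MT (nn m)} {s : Finset ι} {i : ι} {k : ι ⊕ ι} (h : bix k ≠ i) :
    part g (insert i s) k = part g s k := by
  by_cases hk : bix k ∈ s
  · rw [part_pos hk, part_pos (Finset.mem_insert_of_mem hk)]
  · rw [part_neg hk, part_neg]
    rw [Finset.mem_insert, not_or]
    exact ⟨h, hk⟩

lemma YY_inl (x : ι → ℂ) (j : ι) : YY m Q x (Sum.inl j) = Yh (m j) (Q j) (x j) := rfl

lemma YY_inr (x : ι → ℂ) (j : ι) : YY m Q x (Sum.inr j) = um2 (Complex.log (x j)) := rfl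

lemma YY_update (i : ι) (x : ι → ℂ) (z : ℂ) :
    YY m Q (Function.update x i z) = upd i (YY m Q x) (Yh (m i) (Q i) z) (um2 (Complex.log z)) := by
  funext k
  rcases k with j | j
  · by_cases h : j = i
    · subst h
      rw [upd_inl, YY_inl, Function.update_self]
    · rw [upd_ne_inl h, YY_inl, YY_inl, Function.update_of_ne h]
  · by_cases h : j = i
    · subst h
      rw [upd_inr, YY_inr, Function.update_self]
    · rw [upd_ne_inr h, YY_inr, YY_inr, Function.update_of_ne h]

/-- the polynomial in one group of variables -/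
lemma exists_one (i : ι) (P : MvPolynomial (Ix (nn m)) (MvPolynomial ι ℂ)) (x : ι → ℂ) (T : MT (nn m)) :
    ∃ p : MvPolynomial (Vr (m i)) ℂ, ∀ z L A, ev p z L A = vt P (Function.update x i z) (upd i T A (um2 L)) := by
  set R := MvPolynomial (Vr (m i)) ℂ with hR
  refine ⟨MvPolynomial.eval₂ (MvPolynomial.eval₂Hom MvPolynomial.C
    (fun k => if k = i then MvPolynomial.X none else MvPolynomial.C (x k)))
    (fun y : Ix (nn m) => upd (R := R) i (fun k => (T k).map MvPolynomial.C)
      (Matrix.of fun a b => MvPolynomial.X (some (some (a, b)))) (um2 (MvPolynomial.X (some none))) y.1 y.2.1 y.2.2) P,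
    fun z L A => ?_⟩
  unfold ev vt
  rw [MvPolynomial.hom_eval₂]
  congr 1
  · ext k
    · simp
    · simp only [RingHom.comp_apply, MvPolynomial.coe_eval₂Hom, MvPolynomial.eval₂_X, MvPolynomial.eval_X]
      by_cases h : k = i
      · subst h
        rw [if_pos rfl, Function.update_self, MvPolynomial.eval_X]
        rfl
      · rw [if_neg h, Function.update_of_ne h, MvPolynomial.eval_C]
  · funext y
    obtain ⟨k, a, b⟩ := y
    rcases k with j | j
    · by_cases h : j = i
      · subst h
        simp only [upd_inl, Matrix.of_apply, MvPolynomial.eval_X]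
        rfl
      · simp only [upd_ne_inl h, Matrix.map_apply, MvPolynomial.eval_C]
    · by_cases h : j = i
      · subst h
        simp only [upd_inr]
        change (Fin 2) at a b
        unfold um2
        fin_cases a <;> fin_cases b <;> simp [pt]
      · simp only [upd_ne_inr h, Matrix.map_apply, MvPolynomial.eval_C]

/-- **Invariance.** -/
theorem Gd_inv (hQ : ∀ i, QD (m i) (Q i)) (g : (MT (nn m))ˣ) (hg : g ∈ Gd m Q hQ) :
    (g : MT (nn m)) ∈ GalT (Ud ι) (YY m Q) := by
  -- blocks of index `i`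
  have key : ∀ (i : ι) (h : Matrix (Fin (m i)) (Fin (m i)) ℂ) (a : ℂ), isoJ (m i) (Q i) h →
      (upd i (fun k => 1) h (um2 a) : MT (nn m)) ∈ GalT (Ud ι) (YY m Q) := by
    intro i h a hh P hP x hx
    obtain ⟨p, hp⟩ := exists_one i P x (YY m Q x)
    have h1 : ∀ z ∈ Sd, ev p z (Complex.log z) (Yh (m i) (Q i) z) = 0 := by
      intro z hz
      rw [hp, ← YY_update]
      refine hP _ fun k => ?_
      by_cases hk : k = i
      · subst hk
        rw [Function.update_self]
        exact hz
      · rw [Function.update_of_ne hk]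
        exact hx k
    have h2 := hyp_full (hQ i) h1 a h hh (x i) (hx i)
    rw [hp, Function.update_eq_self] at h2
    rw [← h2]
    congr 1
    funext k
    rw [Pi.mul_apply]
    rcases k with j | j
    · by_cases hj : j = i
      · subst hj
        rw [upd_inl, upd_inl]
        rfl
      · rw [upd_ne_inl hj, upd_ne_inl hj, mul_one]
    · by_cases hj : j = i
      · subst hj
        rw [upd_inr, upd_inr]
        exact um2_mul _ _
      · rw [upd_ne_inr hj, upd_ne_inr hj, mul_one]
  have hg' := mem_Gd.1 hg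
  have h1 : ∀ s : Finset ι, part (g : MT (nn m)) s ∈ GalT (Ud ι) (YY m Q) := by
    intro s
    induction s using Finset.induction_on with
    | empty =>
      have : part (g : MT (nn m)) (∅ : Finset ι) = 1 := by
        funext k
        exact part_neg (Finset.notMem_empty _)
      rw [this]
      exact one_mem _
    | insert i s hi ih =>
      obtain ⟨a, ha⟩ : isU ((g : MT (nn m)) (Sum.inr i)) := hg' (Sum.inr i)
      have hgi : isoJ (m i) (Q i) ((g : MT (nn m)) (Sum.inl i)) := hg' (Sum.inl i)
      have : part (g : MT (nn m)) (insert i s) = part (g : MT (nn m)) s *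
            upd i (fun k => 1) ((g : MT (nn m)) (Sum.inl i)) (um2 a) := by
        funext k
        rw [Pi.mul_apply]
        rcases k with j | j
        · by_cases hj : j = i
          · subst hj
            rw [upd_inl, part_pos (k := Sum.inl j) (Finset.mem_insert_self j s), part_neg (k := Sum.inl j) hi, one_mul]
          · rw [upd_ne_inl hj, mul_one]
            exact part_insert_ne (k := Sum.inl j) hj
        · by_cases hj : j = i
          · subst hj
            rw [upd_inr, part_pos (k := Sum.inr j) (Finset.mem_insert_self j s), part_neg (k := Sum.inr j) hi, one_mul]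
            exact ha
          · rw [upd_ne_inr hj, mul_one]
            exact part_insert_ne (k := Sum.inr j) hj
      rw [this]
      exact mul_mem ih (key i _ a hgi)
  have h2 := h1 Finset.univ
  have h3 : part (g : MT (nn m)) Finset.univ = g := by
    funext k
    exact part_pos (Finset.mem_univ _)
  rwa [h3] at h2

lemma two_values {n : ℕ} {Q : Polynomial ℚ} (hQ : QD n Q) {x y : ℂ} (hx : x ∈ Sd) (hy : y ∈ Sd) :
    ∃ g, isoJ n Q g ∧ Yh n Q y = Yh n Q x * g := by
  have hdY : (Yh n Q x).det ≠ 0 := by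
    intro h
    apply Jc_det hQ
    rw [← Yh_form hQ hx, det_mul, h, mul_zero]
  have h1 : Yh n Q x * (Yh n Q x)⁻¹ = 1 := mul_nonsing_inv _ (Ne.isUnit hdY)
  have h3 : ((Yh n Q x)⁻¹).transpose * cm (Jm n Q) * (Yh n Q x)⁻¹ = cm (Jm n Q) := by
    calc ((Yh n Q x)⁻¹).transpose * cm (Jm n Q) * (Yh n Q x)⁻¹ =
          ((Yh n Q x)⁻¹).transpose * ((Yh n Q x).transpose * cm (Jm n Q) * Yh n Q x) * (Yh n Q x)⁻¹ := by
            rw [Yh_form hQ hx]
      _ = (Yh n Q x * (Yh n Q x)⁻¹).transpose * cm (Jm n Q) * (Yh n Q x * (Yh n Q x)⁻¹) := by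
            rw [transpose_mul]; simp only [Matrix.mul_assoc]
      _ = _ := by rw [h1, transpose_one, one_mul, mul_one]
  refine ⟨(Yh n Q x)⁻¹ * Yh n Q y, ?_, ?_⟩
  · unfold isoJ
    calc ((Yh n Q x)⁻¹ * Yh n Q y).transpose * cm (Jm n Q) * ((Yh n Q x)⁻¹ * Yh n Q y) =
          (Yh n Q y).transpose * (((Yh n Q x)⁻¹).transpose * cm (Jm n Q) * (Yh n Q x)⁻¹) * Yh n Q y := by
            rw [transpose_mul]; simp only [Matrix.mul_assoc]
      _ = _ := by rw [h3]; exact Yh_form hQ hy
  · rw [← Matrix.mul_assoc, h1, one_mul]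

lemma YY_val (hQ : ∀ i, QD (m i) (Q i)) : ∀ x ∈ Ud ι, ∀ y ∈ Ud ι, ∃ g ∈ Gd m Q hQ, YY m Q y = YY m Q x * (g : MT (nn m)) := by
  intro x hx y hy
  have h1 : ∀ k : ι ⊕ ι, ∃ h, good m Q k h ∧ YY m Q y k = YY m Q x k * h
    | Sum.inl i => two_values (hQ i) (hx i) (hy i)
    | Sum.inr i => ⟨um2 (Complex.log (y i) - Complex.log (x i)), ⟨_, rfl⟩, by
        show um2 (Complex.log (y i)) = um2 (Complex.log (x i)) * um2 (Complex.log (y i) - Complex.log (x i))
        rw [um2_mul, add_sub_cancel]⟩
  choose h h2 h3 using h1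
  obtain ⟨u, hu, hu'⟩ := exists_unit hQ h h2
  refine ⟨u, hu, ?_⟩
  rw [hu']
  funext k
  exact h3 k

/-- **The main theorem for hypergeometric families with logarithms.** -/
theorem hyp_few [Nonempty ι] (hQ : ∀ i, QD (m i) (Q i)) : Few (Ud ι) (YY m Q) (Gd m Q hQ) :=
  few_of Ud_preconn Ud_open Ud_ne (YY_an hQ) (Gd_ugen hQ) (YY_val hQ) (Gd_inv hQ)

end Pool.Agent.Y119.PLM
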