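import Pool.Agent.Y119.PL.Reg
import Pool.Agent.Y119.PLM.Gal

/-!
# Regularity: the field of rational functions is algebraically closed in the field generated by the periods
-/

set_option autoImplicit false
set_option linter.unusedSectionVars false

open Filter Topology Matrix Polynomial

namespace Pool.Agent.Y119.PLM

open Pool.Agent.Y119.HY Pool.Agent.Y119.PL Pool.Agent.Y890.MV

variable {X κ : Type} [Fintype X] {n : κ → ℕ} [DecidableEq κ] [Fintype κ] {U : Set (X → ℂ)} {Y : (X → ℂ) → MT n}
  {J J' : (j : κ) → Matrix (Fin (n j)) (Fin (n j)) ℂ}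

/-- a submonoid which contains the transvections in all factors contains the product of the symplectic groups -/
lemma all_of_tv (hJ : ∀ j, (J j).transpose = -J j) (hdet : ∀ j, (J j).det ≠ 0) (S : Submonoid (MT n))
    (hS : ∀ j v s, (Pi.mulSingle j (tv (J j) v s) : MT n) ∈ S) (g : MT n)
    (hg : ∀ j, (g j).transpose * J j * g j = J j) : g ∈ S := by
  have h0 : ∀ j h, h.transpose * J j * h = J j → (Pi.mulSingle j h : MT n) ∈ S := by
    intro j h hh
    exact sp_of_tv (hJ j) (hdet j) (S.comap (MonoidHom.mulSingle (fun j => Matrix (Fin (n j)) (Fin (n j)) ℂ) j))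
      (fun x s => hS j x s) h hh
  have h1 : ∀ s : Finset κ, (fun k => if k ∈ s then g k else 1 : MT n) ∈ S := by
    intro s
    induction s using Finset.induction_on with
    | empty =>
      have : (fun k => if k ∈ (∅ : Finset κ) then g k else 1 : MT n) = 1 := by
        funext k
        simp
      rw [this]
      exact one_mem _
    | insert j s hj ih =>
      have : (fun k => if k ∈ insert j s then g k else 1 : MT n) =
          (fun k => if k ∈ s then g k else 1 : MT n) * Pi.mulSingle j (g j) := by
        funext k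
        rw [Pi.mul_apply]
        by_cases hk : k = j
        · subst hk
          rw [Pi.mulSingle_eq_same, if_pos (Finset.mem_insert_self _ _), if_neg hj, one_mul]
        · rw [Pi.mulSingle_eq_of_ne hk, mul_one]
          simp [hk]
      rw [this]
      exact mul_mem ih (h0 j (g j) (hg j))
  have h2 := h1 Finset.univ
  simpa using h2

/-- **Regularity.** -/
theorem regularM_of (hJ : ∀ j, (J j).transpose = -J j) (hdet : ∀ j, (J j).det ≠ 0) (hU : IsPreconnected U) (hUo : IsOpen U)
    (hY : ∀ j a b, AnalyticOnNhd ℂ (fun x => Y x j a b) U)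
    (hsym : ∀ x ∈ U, ∀ j, (Y x j).transpose * J' j * Y x j = J j)
    (hsp : ∀ g : MT n, (∀ j, (g j).transpose * J j * g j = J j) → g ∈ GalT U Y) :
    RegularM U (fun (i : Ix n) x => Y x i.1 i.2.1 i.2.2) := by
  classical
  intro V g P Q R hVo hVne hVU hg hR hQ hPQ hRg
  have hev : ∀ x (P : MvPolynomial (Ix n) (MvPolynomial X ℂ)),
      evM (fun (i : Ix n) x => Y x i.1 i.2.1 i.2.2) x P = vt P x (Y x) := fun _ _ => rfl
  simp only [hev] at hQ hPQ
  have hVne' := hVne
  obtain ⟨x1, hx1⟩ := hVne
  -- the homogenized relation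
  set m := R.natDegree with hm
  set W : MvPolynomial (Ix n) (MvPolynomial X ℂ) :=
    ∑ i ∈ Finset.range (m + 1), MvPolynomial.C (R.coeff i) * P ^ i * Q ^ (m - i) with hWd
  have hWe : ∀ x A, vt W x A = ∑ i ∈ Finset.range (m + 1), MvPolynomial.eval x (R.coeff i) * vt P x A ^ i *
      vt Q x A ^ (m - i) := by
    intro x A
    simp only [vt, hWd, MvPolynomial.eval₂_sum, MvPolynomial.eval₂_mul, MvPolynomial.eval₂_pow,
      MvPolynomial.eval₂_C]
  have hWV : ∀ x ∈ V, vt W x (Y x) = 0 := by
    intro x hx
    have h1 : vt W x (Y x) = vt Q x (Y x) ^ m * (R.map (MvPolynomial.eval x)).eval (g x) := by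
      rw [hWe, eval_map, eval₂_eq_sum_range, Finset.mul_sum]
      refine Finset.sum_congr rfl fun i hi => ?_
      have hi' : i ≤ m := Nat.lt_succ_iff.1 (Finset.mem_range.1 hi)
      have h4 : vt Q x (Y x) ^ m = vt Q x (Y x) ^ i * vt Q x (Y x) ^ (m - i) := by
        rw [← pow_add]; congr 1; omega
      rw [h4, ← hPQ x hx]
      ring
    rw [h1, hRg x hx, mul_zero]
  have hW : IsRelT U Y W := eq_on hU (vt_an hY W) hVo hVne' hVU hWV
  -- the set of good group elements
  let K : MT n → MvPolynomial (Ix n) (MvPolynomial X ℂ) := fun h => sgt h P * Q - P * sgt h Q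
  have hKe : ∀ h x A, vt (K h) x A = vt P x (A * h) * vt Q x A - vt P x A * vt Q x (A * h) := by
    intro h x A
    have h1 : vt (K h) x A = vt (sgt h P) x A * vt Q x A - vt P x A * vt (sgt h Q) x A := by
      simp only [K, vt, sub_eq_add_neg, MvPolynomial.eval₂_add, MvPolynomial.eval₂_mul, MvPolynomial.eval₂_neg]
    rw [h1, vt_sgt, vt_sgt]
  let 𝒮 : Submonoid (MT n) :=
    { carrier := {h | (∀ j, (h j).transpose * J j * h j = J j) ∧ IsRelT U Y (K h)}
      mul_mem' := by
        rintro h h' ⟨hh, hhK⟩ ⟨hh', hhK'⟩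
        refine ⟨?_, ?_⟩
        · intro j
          rw [Pi.mul_apply]
          calc (h j * h' j).transpose * J j * (h j * h' j) = (h' j).transpose * ((h j).transpose * J j * h j) * h' j := by
                rw [transpose_mul]; simp only [Matrix.mul_assoc]
            _ = J j := by rw [hh j, hh' j]
        · have h1 : ∀ x ∈ U, vt P x (Y x * h * h') * vt Q x (Y x * h) - vt P x (Y x * h) * vt Q x (Y x * h * h') = 0 := by
            intro x hx
            rw [← hKe]
            exact hsp h hh (K h') hhK' x hx
          have h2 : ∀ x ∈ U, vt P x (Y x * h) * vt Q x (Y x) - vt P x (Y x) * vt Q x (Y x * h) = 0 := by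
            intro x hx
            rw [← hKe]
            exact hhK x hx
          have h3 : ∀ x ∈ U, vt (sgt h Q) x (Y x) * vt (K (h * h')) x (Y x) = 0 := by
            intro x hx
            rw [vt_sgt, hKe, ← mul_assoc]
            linear_combination (vt Q x (Y x)) * h1 x hx + (vt Q x (Y x * h * h')) * h2 x hx
          have h3' : ∀ᶠ x in nhdsSet U, vt (sgt h Q) x (Y x) * vt (K (h * h')) x (Y x) = 0 := by
            rw [hUo.nhdsSet_eq, Filter.eventually_principal]
            exact h3
          rcases zero_or_zero (vt_an hY (sgt h Q)) (vt_an hY (K (h * h'))) hU h3' with h4 | h4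
          · exfalso
            have hinv := fun j => inv_isom (hdet j) (hh j)
            let hi : MT n := fun j => (h j)⁻¹
            have h5' : hi * h = 1 := by
              funext j
              rw [Pi.mul_apply, Pi.one_apply]
              exact mul_eq_one_comm.1 (hinv j).1
            have h7 := hsp hi (fun j => (hinv j).2) (sgt h Q) h4 x1 (hVU hx1)
            rw [vt_sgt, mul_assoc, h5', mul_one] at h7
            exact hQ x1 hx1 h7
          · exact h4
      one_mem' := by
        refine ⟨fun j => by rw [Pi.one_apply, transpose_one, one_mul, mul_one], fun x _ => ?_⟩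
        rw [hKe, mul_one]
        ring }
  -- transvections are good
  have htv : ∀ j v s, (Pi.mulSingle j (tv (J j) v s) : MT n) ∈ 𝒮 := by
    intro j v s
    have hiso : ∀ c k, ((Pi.mulSingle j (tv (J j) v c) : MT n) k).transpose * J k *
        (Pi.mulSingle j (tv (J j) v c) : MT n) k = J k := by
      intro c k
      by_cases hk : k = j
      · subst hk
        rw [Pi.mulSingle_eq_same]
        exact tv_isom (hJ k) v c
      · rw [Pi.mulSingle_eq_of_ne hk, transpose_one, one_mul, mul_one]
    refine ⟨hiso s, ?_⟩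
    obtain ⟨i0, hi0⟩ : ∃ i, R.coeff i ≠ 0 := by
      by_contra hcon
      push Not at hcon
      exact hR (Polynomial.ext fun i => by rw [hcon i, coeff_zero])
    have hgood : ∀ x ∈ V, MvPolynomial.eval x (R.coeff i0) ≠ 0 →
        vt (K (Pi.mulSingle j (tv (J j) v s))) x (Y x) = 0 := by
      intro x hx hx0
      set A : (k : κ) → Matrix (Fin (n k)) (Fin (n k)) ℂ[X] := fun k => (Y x k).map C *
        (Pi.mulSingle j (tvp (J j) v 1) : (k : κ) → Matrix (Fin (n k)) (Fin (n k)) ℂ[X]) k with hA
      have hAe : ∀ c, (fun k => (A k).map (Polynomial.eval c)) = Y x * Pi.mulSingle j (tv (J j) v c) := by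
        intro c
        funext k
        rw [Pi.mul_apply, hA]
        rw [map_mul_eval, map_C_eval]
        congr 1
        by_cases h : k = j
        · subst h
          rw [Pi.mulSingle_eq_same, Pi.mulSingle_eq_same, tvp_eval, mul_one]
        · rw [Pi.mulSingle_eq_of_ne h, Pi.mulSingle_eq_of_ne h]
          ext a b
          rw [Matrix.map_apply, Matrix.one_apply, Matrix.one_apply]
          split_ifs <;> simp
      have he : ∀ (P : MvPolynomial (Ix n) (MvPolynomial X ℂ)) c, (vtp P x A).eval c =
          vt P x (Y x * Pi.mulSingle j (tv (J j) v c)) := by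
        intro P c
        rw [eval_vtp, hAe]
      have hRx : R.map (MvPolynomial.eval x) ≠ 0 := by
        intro h
        apply hx0
        have := congrArg (fun p => Polynomial.coeff p i0) h
        simpa using this
      have h0 : (Pi.mulSingle j (tv (J j) v 0) : MT n) = 1 := by
        rw [tv_zero, Pi.mulSingle_one]
      have h1 := two_poly (A := vtp P x A) (B := vtp Q x A) hRx (m := m) Polynomial.natDegree_map_le (fun c => by
          rw [he, he]
          have h2 := hsp _ (hiso c) W hW x (hVU hx)
          rw [hWe] at h2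
          rw [← h2]
          refine Finset.sum_congr rfl fun i _ => ?_
          rw [coeff_map]) s
      rw [he, he, he, he, h0, mul_one] at h1
      rw [hKe, h1, sub_self]
    obtain ⟨x0, hx0V, hx0⟩ : ∃ x ∈ V, MvPolynomial.eval x (R.coeff i0) ≠ 0 := by
      by_contra hcon
      push Not at hcon
      exact hi0 (poly_zero hVo hVne' _ hcon)
    have h1 : ∀ᶠ x in 𝓝 x0, MvPolynomial.eval x (R.coeff i0) ≠ 0 := by
      have h2 : AnalyticAt ℂ (fun x => MvPolynomial.eval x (R.coeff i0)) x0 :=
        (AnalyticOnNhd.eval_mvPolynomial (R.coeff i0)) x0 trivial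
      exact h2.continuousAt.eventually_ne hx0
    obtain ⟨O, hO1, hO2, hO3⟩ := mem_nhds_iff.1 (h1.and (hVo.mem_nhds hx0V))
    exact eq_on hU (vt_an hY _) hO2 ⟨x0, hO3⟩ (fun x hx => hVU (hO1 hx).2) fun x hx => hgood x (hO1 hx).2 (hO1 hx).1
  have hall : ∀ h : MT n, (∀ j, (h j).transpose * J j * h j = J j) → IsRelT U Y (K h) :=
    fun h hh => (all_of_tv hJ hdet 𝒮 htv h hh).2
  -- evaluation at a constant point
  let pc : MvPolynomial (Ix n) (MvPolynomial X ℂ) → MvPolynomial X ℂ := fun P =>
    MvPolynomial.eval₂ (RingHom.id (MvPolynomial X ℂ)) (fun i : Ix n => MvPolynomial.C (Y x1 i.1 i.2.1 i.2.2)) P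
  have hpc : ∀ P x, MvPolynomial.eval x (pc P) = vt P x (Y x1) := by
    intro P x
    simp only [pc, vt]
    rw [MvPolynomial.hom_eval₂]
    congr 1
    ext <;> simp
  refine ⟨pc P, pc Q, ?_, fun x hx => ?_⟩
  · intro h
    apply hQ x1 hx1
    rw [← hpc, h, map_zero]
  · have hdY : ∀ j, (Y x j).det ≠ 0 := by
      intro j h
      apply hdet j
      rw [← hsym x (hVU hx) j, det_mul, h, mul_zero]
    let Z : MT n := fun j => (Y x j)⁻¹ * Y x1 j
    have h1 : ∀ j, Y x j * (Y x j)⁻¹ = 1 := fun j => mul_nonsing_inv _ (Ne.isUnit (hdY j))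
    have h3 : ∀ j, ((Y x j)⁻¹).transpose * J j * (Y x j)⁻¹ = J' j := by
      intro j
      rw [← hsym x (hVU hx) j]
      calc ((Y x j)⁻¹).transpose * ((Y x j).transpose * J' j * Y x j) * (Y x j)⁻¹ =
            (Y x j * (Y x j)⁻¹).transpose * J' j * (Y x j * (Y x j)⁻¹) := by
              rw [transpose_mul]; simp only [Matrix.mul_assoc]
        _ = J' j := by rw [h1 j, transpose_one, one_mul, mul_one]
    have h4 : ∀ j, (Z j).transpose * J j * Z j = J j := by
      intro j
      calc ((Y x j)⁻¹ * Y x1 j).transpose * J j * ((Y x j)⁻¹ * Y x1 j) =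
            (Y x1 j).transpose * (((Y x j)⁻¹).transpose * J j * (Y x j)⁻¹) * Y x1 j := by
              rw [transpose_mul]; simp only [Matrix.mul_assoc]
        _ = J j := by rw [h3 j]; exact hsym x1 (hVU hx1) j
    have h5 := hall Z h4 x (hVU hx)
    have h6 : Y x * Z = Y x1 := by
      funext j
      rw [Pi.mul_apply, ← Matrix.mul_assoc, h1 j, one_mul]
    rw [hKe, h6, ← hPQ x hx] at h5
    rw [hpc, hpc]
    have h7 : vt Q x (Y x) * (vt Q x (Y x1) * g x - vt P x (Y x1)) = 0 := by linear_combination -h5
    exact sub_eq_zero.1 ((mul_eq_zero.1 h7).resolve_left (hQ x hx))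

end Pool.Agent.Y119.PLM
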